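import Pool.Agent.H44T.BR.Defs

/-!
# Jordan blocks of the Frobenius: definitions
-/

open CategoryTheory AlgebraicGeometry

universe u v

namespace Pool.Agent.H44T.BR

open Pool.Agent.H914 Pool.Agent.H914.VarClass Pool.Agent.H914.VarClass.Obj
  Pool.Agent.H914.WeilCohomology

variable {k : Type u} [Field k] {𝒱 : VarClass k} {ops : CycleOps 𝒱}

/-- The action of the Frobenius endomorphism on the cohomology. -/
noncomputable def frob (W : WeilCohomology.{u, v} ops) (Fr : ∀ X : 𝒱.Obj, X ⟶ X) (X : 𝒱.Obj) :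
    Module.End W.K (W.H X) := (W.map (Fr X)).toLinearMap

section Alg

variable {K V : Type*} [Field K] [AddCommGroup V] [Module K V]

/-- `t (F z) = q ^ m * t z` for all `z`. -/
def ScalesBy (t : V →ₗ[K] K) (F : Module.End K V) (q : K) (m : ℕ) : Prop :=
  ∀ z, t (F z) = q ^ m * t z

/-- `z` is an eigenvector of `F` with the eigenvalue `q ^ m`, or zero. -/
def IsEigen (F : Module.End K V) (q : K) (m : ℕ) (z : V) : Prop := F z = q ^ m • z

/-- The span of the eigenvectors of `F` in `U`. -/
def eigenSpan (U : Submodule K V) (F : Module.End K V) : Submodule K V :=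
  Submodule.span K {x | x ∈ U ∧ ∃ α : K, F x = α • x}

/-- The generalised eigenspace of `F` in `U` for the eigenvalue `α`. -/
noncomputable def genSpace (U : Submodule K V) (F : Module.End K V) (α : K) : Submodule K V :=
  F.maxGenEigenspace α ⊓ U

/-- The eigenspace of `F` in `U` for the eigenvalue `α`. -/
noncomputable def eigSpace (U : Submodule K V) (F : Module.End K V) (α : K) : Submodule K V :=
  F.eigenspace α ⊓ U

/-- The subspace `E` has codimension at most `d` in `T`. -/
def CodimAtMost (E T : Submodule K V) (d : ℕ) : Prop :=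
  Module.finrank K T ≤ Module.finrank K E + d

end Alg

/-- The endomorphisms `Fr X` are the Frobenius endomorphisms of the varieties over the field with `q`
elements: they commute with all morphisms, and act by `q ^ p` on the classes of the cycles of
codimension `p` and on the top cohomology of a variety of dimension `p`. -/
structure IsFrobenius (W : WeilCohomology.{u, v} ops) (q : ℕ) (Fr : ∀ X : 𝒱.Obj, X ⟶ X) :
    Prop where
  natural : ∀ {X Y : 𝒱.Obj} (f : X ⟶ Y), Fr X ≫ f = f ≫ Fr Y
  pos : q ≠ 0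
  tr : ∀ X, ScalesBy (W.tr X) (frob W Fr X) (q : W.K) X.dim
  cyc : ∀ (X : 𝒱.Obj) (p : ℕ) (z : X.Cycles), X.IsCyc p z →
    IsEigen (frob W Fr X) (q : W.K) p (W.cl X z)

/-- The Frobenius is diagonalizable on `H^i(X)` for the members of dimension `n`. -/
def AllSemisimple (W : WeilCohomology.{u, v} ops) (Fr : ∀ X : 𝒱.Obj, X ⟶ X)
    (Pol : ∀ X : 𝒱.Obj, X.Cycles → Prop) (n i : ℕ) : Prop :=
  ∀ X D, X.dim = n → Pol X D → W.gr X i = eigenSpan (W.gr X i) (frob W Fr X)

/-- The eigenvectors span a subspace of codimension at most `d` of `H^i(X)` for the members of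
dimension `n`. -/
def EigenDefectAtMost (W : WeilCohomology.{u, v} ops) (Fr : ∀ X : 𝒱.Obj, X ⟶ X)
    (Pol : ∀ X : 𝒱.Obj, X.Cycles → Prop) (n i d : ℕ) : Prop :=
  ∀ X D, X.dim = n → Pol X D → CodimAtMost (eigenSpan (W.gr X i) (frob W Fr X)) (W.gr X i) d

/-- The generalised eigenspace of the Frobenius for the eigenvalue `α` on `H^i(X)` is the eigenspace,
for the members of dimension `n`. -/
def SemisimpleAt (W : WeilCohomology.{u, v} ops) (Fr : ∀ X : 𝒱.Obj, X ⟶ X)
    (Pol : ∀ X : 𝒱.Obj, X.Cycles → Prop) (n i : ℕ) (α : W.K) : Prop :=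
  ∀ X D, X.dim = n → Pol X D →
    genSpace (W.gr X i) (frob W Fr X) α = eigSpace (W.gr X i) (frob W Fr X) α

/-- The eigenspace for `α` has codimension at most `d` in the generalised eigenspace. -/
def DefectAtMostAt (W : WeilCohomology.{u, v} ops) (Fr : ∀ X : 𝒱.Obj, X ⟶ X)
    (Pol : ∀ X : 𝒱.Obj, X.Cycles → Prop) (n i : ℕ) (α : W.K) (d : ℕ) : Prop :=
  ∀ X D, X.dim = n → Pol X D →
    CodimAtMost (eigSpace (W.gr X i) (frob W Fr X) α) (genSpace (W.gr X i) (frob W Fr X) α) d

end Pool.Agent.H44T.BR
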