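import Pool.Agent.V11106.SH.AHDefs
import Pool.Agent.H44T.BR.FrobDefs

/-!
# Absolute Hodge classes up to errors of bounded dimension, in a fixed dimension: definitions
-/

open CategoryTheory AlgebraicGeometry

universe u v w x

namespace Pool.Agent.H44T.BR

open Pool.Agent.H914 Pool.Agent.H914.VarClass Pool.Agent.H914.VarClass.Obj
  Pool.Agent.H914.WeilCohomology Pool.Agent.V11106.SH

variable {k : Type u} [Field k] {𝒱 : VarClass k} {ops : CycleOps 𝒱}
  {S : Type w} {W : S → WeilCohomology.{u, v} ops}

/-- For the members of dimension `n` all Hodge classes of codimension `p` are (combinations of)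
absolute Hodge classes. -/
def HodgeAbsoluteFor (Φ : HodgeFamily.{u, v, w, x} W) (s : S)
    (Pol : ∀ X : 𝒱.Obj, X.Cycles → Prop) (n p : ℕ) : Prop :=
  ∀ X D, X.dim = n → Pol X D → Φ.hdg s X p = absHodge Φ s X p

/-- For the members of dimension `n` the absolute Hodge classes span a subspace of codimension at
most `d` of the space of the Hodge classes of codimension `p`. -/
def HodgeDefectAtMost (Φ : HodgeFamily.{u, v, w, x} W) (s : S)
    (Pol : ∀ X : 𝒱.Obj, X.Cycles → Prop) (n p d : ℕ) : Prop :=
  ∀ X D, X.dim = n → Pol X D → CodimAtMost (absHodge Φ s X p) (Φ.hdg s X p) d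

/-- On some complete intersection `V` in `Y^N` of the dimension of `Y`, for some `N`, the absolute
Hodge classes span a subspace of the space of the Hodge classes whose codimension is less than
`N / dim H(Y)`. -/
def HasGoodHodgePower (Φ : HodgeFamily.{u, v, w, x} W) (s : S) (Y : 𝒱.Obj) (D : Y.Cycles)
    (p : ℕ) : Prop :=
  ∃ (N : ℕ) (V : 𝒱.Obj) (A : V.Cycles) (d : ℕ), IsPowerOf (W s) D N A ∧
    d * totalBetti (W s) Y < N ∧ CodimAtMost (absHodge Φ s V p) (Φ.hdg s V p) d

/-- For the members of dimension `n` all absolute Hodge classes of codimension `p` are (combinations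
of) algebraic classes. -/
def AbsoluteAlgebraicFor (Φ : HodgeFamily.{u, v, w, x} W) (s : S)
    (Pol : ∀ X : 𝒱.Obj, X.Cycles → Prop) (n p : ℕ) : Prop :=
  ∀ X D, X.dim = n → Pol X D → absHodge Φ s X p = spanCycles (W s) X (p : ℤ)

/-- For the members of dimension `n` the algebraic classes span a subspace of codimension at most `d`
of the space of the absolute Hodge classes of codimension `p`. -/
def AbsoluteDefectAtMost (Φ : HodgeFamily.{u, v, w, x} W) (s : S)
    (Pol : ∀ X : 𝒱.Obj, X.Cycles → Prop) (n p d : ℕ) : Prop :=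
  ∀ X D, X.dim = n → Pol X D → CodimAtMost (spanCycles (W s) X (p : ℤ)) (absHodge Φ s X p) d

/-- On some complete intersection `V` in `Y^N` of the dimension of `Y`, for some `N`, the algebraic
classes span a subspace of the space of the absolute Hodge classes whose codimension is less than
`N / dim H(Y)`. -/
def HasGoodAbsolutePower (Φ : HodgeFamily.{u, v, w, x} W) (s : S) (Y : 𝒱.Obj) (D : Y.Cycles)
    (p : ℕ) : Prop :=
  ∃ (N : ℕ) (V : 𝒱.Obj) (A : V.Cycles) (d : ℕ), IsPowerOf (W s) D N A ∧
    d * totalBetti (W s) Y < N ∧ CodimAtMost (spanCycles (W s) V (p : ℤ)) (absHodge Φ s V p) d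

end Pool.Agent.H44T.BR
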