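import Pool.Agent.H44T.BR.Pair

/-!
# Bounded defects on one power
-/

open CategoryTheory AlgebraicGeometry Finset

set_option linter.unusedSectionVars false

universe u v

namespace Pool.Agent.H44T.BR

open Pool.Agent.H914 Pool.Agent.H914.VarClass Pool.Agent.H914.VarClass.Obj
  Pool.Agent.H914.WeilCohomology Pool.Agent.V1144.Pw

variable {k : Type u} [Field k] {𝒱 : VarClass k} {ops : CycleOps 𝒱}
  {W : WeilCohomology.{u, v} ops} {S V R X Y : 𝒱.Obj}

/-- **Small defects on one power of `S` imply that there are none on `S`.** -/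
theorem pair_good {Pol : ∀ X : 𝒱.Obj, X.Cycles → Prop} {n i : ℕ}
    {T E : ∀ X : 𝒱.Obj, Submodule W.K (W.H X)} (hTE : IsFunctorialPair W Pol n i T E)
    {D : S.Cycles} (hS : S.dim = n) (hSD : Pol S D) (hD : S.IsCyc 1 D)
    (hHL : HardLefschetz W S D) {N : ℕ} {A : V.Cycles} (hA : IsPowerOf W D N A) {d : ℕ}
    (hd : Module.finrank W.K (T V) ≤ Module.finrank W.K (E V) + d)
    (hN : d * Module.finrank W.K (W.H S) < N) : T S = E S := by
  refine le_antisymm ?_ (hTE.le S hS)
  obtain ⟨R, F, f, c, h⟩ := hA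
  have hV : V.dim = n := h.dim.trans hS
  have key : ∀ x ∈ T S, (∀ s, W.tr S (W.cl S D ^ s * x) = 0) → x ∈ E S := by
    intro x hx horth
    exact h.principle hD (fun l y hy => hTE.pull _ hV hS y hy)
      (fun l v hv => hTE.push _ hV hS v hv) (hTE.le V hV) hd hN hx horth
  intro x hx
  have hxi := hTE.deg S hS hx
  by_cases hex : ∃ j, i = 2 * j ∧ j ≤ n
  · obtain ⟨j, hj, hjn⟩ := hex
    have hoff : ∀ s, s ≠ n - j → ∀ z ∈ W.gr S i, W.tr S (W.cl S D ^ s * z) = 0 := by
      intro s hs z hz
      apply W.tr_eq_zero (W.mul_mem (pow_mem_gr (W.cl_mem hD) s) hz)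
      omega
    rcases hTE.power S D hS hSD j hj hjn with hp | hp
    · by_cases htr : W.tr S (W.cl S D ^ S.dim) = 0
      · rw [tr_pow_ne_zero hD hHL htr x]
        exact Submodule.zero_mem _
      set q := W.tr S (W.cl S D ^ (n - j) * x) / W.tr S (W.cl S D ^ S.dim) with hq
      have hpT : W.cl S D ^ j ∈ T S := hTE.le S hS hp
      have h1 : x - q • W.cl S D ^ j ∈ E S := by
        apply key _ (Submodule.sub_mem _ hx (Submodule.smul_mem _ _ hpT))
        intro s
        by_cases hs : s = n - j
        · subst hs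
          rw [mul_sub, map_sub, mul_smul_comm, map_smul, ← pow_add,
            show n - j + j = S.dim by omega, hq, smul_eq_mul, div_mul_cancel₀ _ htr, sub_self]
        · exact hoff s hs _ (Submodule.sub_mem _ hxi (Submodule.smul_mem _ _
            (hTE.deg S hS hpT)))
      have h2 := Submodule.add_mem _ h1 (Submodule.smul_mem _ q hp)
      rwa [sub_add_cancel] at h2
    · apply key x hx
      intro s
      by_cases hs : s = n - j
      · subst hs; exact hp x hx
      · exact hoff s hs x hxi
  · apply key x hx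
    intro s
    apply W.tr_eq_zero (W.mul_mem (pow_mem_gr (W.cl_mem hD) s) hxi)
    intro h0
    exact hex ⟨n - s, by omega, by omega⟩

end Pool.Agent.H44T.BR
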