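import Pool.Agent.V11106.SH.AH
import Pool.Agent.H44T.BR.AbsDefs
import Pool.Agent.H44T.BR.Good

/-!
# Absolute Hodge classes up to errors of bounded dimension, in a fixed dimension
-/

open CategoryTheory AlgebraicGeometry Finset

set_option linter.unusedSectionVars false

universe u v w x

namespace Pool.Agent.H44T.BR

open Pool.Agent.H914 Pool.Agent.H914.VarClass Pool.Agent.H914.VarClass.Obj
  Pool.Agent.H914.WeilCohomology Pool.Agent.V1144.Pw Pool.Agent.V11106.SH

variable {k : Type u} [Field k] {𝒱 : VarClass k} {ops : CycleOps 𝒱}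
  {S : Type w} {W : S → WeilCohomology.{u, v} ops}

lemma pow_mem_alg {V : WeilCohomology.{u, v} ops} {X : 𝒱.Obj} {D : X.Cycles} (hD : X.IsCyc 1 D)
    (j : ℕ) : V.cl X D ^ j ∈ spanCycles V X (j : ℤ) := by
  have h1 : ∀ j : ℕ, V.cl X D ^ j ∈ algClasses V X j := by
    intro j
    induction j with
    | zero =>
      rw [pow_zero]
      exact ⟨X.V.fundCycle, X.V.fundCycle_mem, V.cl_fund X⟩
    | succ j ih =>
      obtain ⟨z, hz, hz'⟩ := ih
      refine ⟨ops.mul z D, ops.mul_mem hz hD, ?_⟩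
      rw [V.cl_mul, hz', pow_succ]
  exact alg_mem_span (h1 j)

lemma push_alg {V : WeilCohomology.{u, v} ops} {X Y : 𝒱.Obj} (f : X ⟶ Y) (hXY : X.dim = Y.dim)
    {p : ℕ} {x : V.H X} (hx : x ∈ spanCycles V X (p : ℤ)) :
    V.push f x ∈ spanCycles V Y (p : ℤ) := by
  induction hx using Submodule.span_induction with
  | mem x hx =>
    obtain ⟨q, hq, z, hz, rfl⟩ := hx
    rw [← V.cl_push]
    exact Submodule.subset_span ⟨q, hq, _, ops.push_mem f hz (by omega), rfl⟩
  | zero => rw [map_zero]; exact Submodule.zero_mem _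
  | add a b _ _ ha hb => rw [map_add]; exact Submodule.add_mem _ ha hb
  | smul c a _ ha => rw [map_smul]; exact Submodule.smul_mem _ _ ha

lemma abs_map (Φ : HodgeFamily.{u, v, w, x} W) (s : S) {X Y : 𝒱.Obj} (f : X ⟶ Y) {p : ℕ}
    {a : (W s).H Y} (ha : a ∈ absHodge Φ s Y p) : (W s).map f a ∈ absHodge Φ s X p := by
  induction ha using Submodule.span_induction with
  | mem a ha =>
    refine Submodule.subset_span ⟨(Φ.hodge s).map f p p rfl _ ha.1, fun t => ?_⟩
    obtain ⟨b, hb, hbc⟩ := ha.2 t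
    refine ⟨(W t).map f b, (Φ.hodge t).map f p p rfl _ hb, ?_⟩
    rw [(Φ.realization t).map f p p rfl _ (((Φ.hodge t).like _).1 _ hb),
      (Φ.realization s).map f p p rfl _ (((Φ.hodge s).like _).1 _ ha.1), hbc]
  | zero => rw [map_zero]; exact Submodule.zero_mem _
  | add a b _ _ ha hb => rw [map_add]; exact Submodule.add_mem _ ha hb
  | smul c a _ ha => rw [map_smul]; exact Submodule.smul_mem _ _ ha

lemma abs_push (Φ : HodgeFamily.{u, v, w, x} W) (s : S) {X Y : 𝒱.Obj} (f : X ⟶ Y)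
    (hXY : X.dim = Y.dim) {p : ℕ} {a : (W s).H X} (ha : a ∈ absHodge Φ s X p) :
    (W s).push f a ∈ absHodge Φ s Y p := by
  have e : p + Y.dim = p + X.dim := by rw [hXY]
  induction ha using Submodule.span_induction with
  | mem a ha =>
    refine Submodule.subset_span ⟨(Φ.hodge s).push f p p e _ ha.1, fun t => ?_⟩
    obtain ⟨b, hb, hbc⟩ := ha.2 t
    refine ⟨(W t).push f b, (Φ.hodge t).push f p p e _ hb, ?_⟩
    rw [(Φ.realization t).push f p p e _ (((Φ.hodge t).like _).1 _ hb),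
      (Φ.realization s).push f p p e _ (((Φ.hodge s).like _).1 _ ha.1), hbc]
  | zero => rw [map_zero]; exact Submodule.zero_mem _
  | add a b _ _ ha hb => rw [map_add]; exact Submodule.add_mem _ ha hb
  | smul c a _ ha => rw [map_smul]; exact Submodule.smul_mem _ _ ha

/-- The pair of the Hodge classes and the absolute Hodge classes. -/
lemma pair_hodge (Φ : HodgeFamily.{u, v, w, x} W) (s : S)
    {Pol : ∀ X : 𝒱.Obj, X.Cycles → Prop} {n : ℕ} (hP : HasPowers (W s) Pol n) (p : ℕ) :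
    IsFunctorialPair (W s) Pol n (2 * p) (fun X => Φ.hdg s X p) (fun X => absHodge Φ s X p) where
  deg X _ := ((Φ.hodge s).like X).1 p
  le X _ := abs_le Φ s X p
  pull f _ _ x hx := (Φ.hodge s).map f p p rfl _ hx
  push {X Y} f hX hY x hx := abs_push Φ s f (hX.trans hY.symm) hx
  power X D _ hD j hj _ := by
    left
    obtain rfl : p = j := by omega
    exact alg_le_abs Φ s X p (pow_mem_alg (hP.cyc X D hD) p)

/-- The pair of the absolute Hodge classes and the algebraic classes. -/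
lemma pair_absolute (Φ : HodgeFamily.{u, v, w, x} W) (s : S)
    {Pol : ∀ X : 𝒱.Obj, X.Cycles → Prop} {n : ℕ} (hP : HasPowers (W s) Pol n) (p : ℕ) :
    IsFunctorialPair (W s) Pol n (2 * p) (fun X => absHodge Φ s X p)
      (fun X => spanCycles (W s) X (p : ℤ)) where
  deg X _ := (abs_le Φ s X p).trans (((Φ.hodge s).like X).1 p)
  le X _ := alg_le_abs Φ s X p
  pull f _ _ x hx := abs_map Φ s f hx
  push {X Y} f hX hY x hx := push_alg f (hX.trans hY.symm) hx
  power X D _ hD j hj _ := by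
    left
    obtain rfl : p = j := by omega
    exact pow_mem_alg (hP.cyc X D hD) p

/-- **Hodge classes and absolute Hodge classes: bounded defects vanish.** -/
theorem hodgeAbsolute_iff (Φ : HodgeFamily.{u, v, w, x} W) (s : S)
    {Pol : ∀ X : 𝒱.Obj, X.Cycles → Prop} {n : ℕ} (hP : HasPowers (W s) Pol n) (p : ℕ) :
    HodgeAbsoluteFor Φ s Pol n p ↔ ∃ d, HodgeDefectAtMost Φ s Pol n p d :=
  pair_iff hP (pair_hodge Φ s hP p)

/-- **Absolute Hodge classes and algebraic classes: bounded defects vanish.** -/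
theorem absoluteAlgebraic_iff (Φ : HodgeFamily.{u, v, w, x} W) (s : S)
    {Pol : ∀ X : 𝒱.Obj, X.Cycles → Prop} {n : ℕ} (hP : HasPowers (W s) Pol n) (p : ℕ) :
    AbsoluteAlgebraicFor Φ s Pol n p ↔ ∃ d, AbsoluteDefectAtMost Φ s Pol n p d :=
  pair_iff hP (pair_absolute Φ s hP p)

/-- **Hodge classes and absolute Hodge classes: one power.** -/
theorem hodgeAbsolute_of_power (Φ : HodgeFamily.{u, v, w, x} W) (s : S)
    {Pol : ∀ X : 𝒱.Obj, X.Cycles → Prop} {n : ℕ} (hP : HasPowers (W s) Pol n) (p : ℕ)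
    {Y : 𝒱.Obj} {D : Y.Cycles} (hY : Y.dim = n) (hYD : Pol Y D)
    (h : HasGoodHodgePower Φ s Y D p) : Φ.hdg s Y p = absHodge Φ s Y p := by
  obtain ⟨N, V, A, d, hV, hN, hd⟩ := h
  exact pair_good (pair_hodge Φ s hP p) hY hYD (hP.cyc Y D hYD) (hP.hard Y D hYD) hV hd hN

/-- **Absolute Hodge classes and algebraic classes: one power.** -/
theorem absoluteAlgebraic_of_power (Φ : HodgeFamily.{u, v, w, x} W) (s : S)
    {Pol : ∀ X : 𝒱.Obj, X.Cycles → Prop} {n : ℕ} (hP : HasPowers (W s) Pol n) (p : ℕ)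
    {Y : 𝒱.Obj} {D : Y.Cycles} (hY : Y.dim = n) (hYD : Pol Y D)
    (h : HasGoodAbsolutePower Φ s Y D p) :
    absHodge Φ s Y p = spanCycles (W s) Y (p : ℤ) := by
  obtain ⟨N, V, A, d, hV, hN, hd⟩ := h
  exact pair_good (pair_absolute Φ s hP p) hY hYD (hP.cyc Y D hYD) (hP.hard Y D hYD) hV hd hN

end Pool.Agent.H44T.BR
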