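import Pool.Agent.H44T.BR.SocDefs

/-!
# Coniveau up to errors of bounded dimension: definitions
-/

open CategoryTheory AlgebraicGeometry Polynomial

universe u v

namespace Pool.Agent.H44T.BR

open Pool.Agent.H914 Pool.Agent.H914.VarClass Pool.Agent.H914.VarClass.Obj
  Pool.Agent.H914.WeilCohomology

section Alg

variable {K G V : Type*} [Field K] [Group G] [AddCommGroup V] [Module K V]

/-- The eigenvalues of `q ^ (-ν) F` on `U` are algebraic integers: some monic polynomial with integral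
coefficients of `q ^ (-ν) F` vanishes on `U`. -/
def EntireAt (F : Module.End K V) (q : K) (ν : ℕ) (U : Submodule K V) : Prop :=
  ∃ p : ℤ[X], p.Monic ∧ ∀ x ∈ U, aeval ((q ^ ν)⁻¹ • F) p x = 0

/-- The subspace `U`, twisted `ν` times, is entire at the Frobenius elements `g ∈ Fr v`, for all the
places `v` up to an `L`-small set of places. -/
def Entire {P : Type*} (ρ : Representation K G V) (χ : G →* Kˣ) (L : Filter P) (Fr : P → Set G)
    (ν : ℕ) (U : Submodule K V) : Prop :=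
  ∀ᶠ v in L, ∀ g ∈ Fr v, EntireAt (ρ g) (χ g : K) ν U

/-- The sum of the stable subspaces of `U` which are entire after `ν` twists. -/
def entirePart {P : Type*} (ρ : Representation K G V) (χ : G →* Kˣ) (L : Filter P)
    (Fr : P → Set G) (ν : ℕ) (U : Submodule K V) : Submodule K V :=
  sSup {U' | U' ≤ U ∧ Stable ρ U' ∧ Entire ρ χ L Fr ν U'}

end Alg

variable {k : Type u} [Field k] {𝒱 : VarClass k} {ops : CycleOps 𝒱}

/-- The span `N^ν H^i(X)` of the images of the Gysin maps `H^(i-2ν)(Y) → H^i(X)` of the morphisms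
`Y ⟶ X` with `dim Y = dim X - ν`. -/
noncomputable def geoConiveau (W : WeilCohomology.{u, v} ops) (X : 𝒱.Obj) (ν i : ℕ) :
    Submodule W.K (W.H X) :=
  Submodule.span W.K {x | ∃ (Y : 𝒱.Obj) (g : Y ⟶ X), Y.dim + ν = X.dim ∧
    ∃ y ∈ W.gr Y (i - 2 * ν), W.push g y = x}

/-- The members `(X, D)` of dimension `n` of the class contain smooth complete intersections of
codimension `ν` of divisors in multiples of the class `D`. -/
def HasPlaneSections (W : WeilCohomology.{u, v} ops) (Pol : ∀ X : 𝒱.Obj, X.Cycles → Prop)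
    (n ν : ℕ) : Prop :=
  ∀ X D, X.dim = n → Pol X D → ∃ (Y : 𝒱.Obj) (g : Y ⟶ X) (q : ℚ), Y.dim + ν = X.dim ∧ q ≠ 0 ∧
    IsMulPow (q : W.K) ν (pushOne W g) (W.cl X D)

/-- The subspaces `H^j(Y)` are entire, for all `Y`. -/
def AllEntire (W : WeilCohomology.{u, v} ops) {G P : Type*} [Group G]
    (ρ : ∀ X : 𝒱.Obj, Representation W.K G (W.H X)) (χ : G →* W.Kˣ) (L : Filter P)
    (Fr : P → Set G) (j : ℕ) : Prop :=
  ∀ Y, Entire (ρ Y) χ L Fr 0 (W.gr Y j)

/-- The generalised Tate conjecture `N^ν H^i(X) = N_ℓ^ν H^i(X)` for the members of dimension `n`. -/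
def GenTate (W : WeilCohomology.{u, v} ops) {G P : Type*} [Group G]
    (ρ : ∀ X : 𝒱.Obj, Representation W.K G (W.H X)) (χ : G →* W.Kˣ) (L : Filter P)
    (Fr : P → Set G) (Pol : ∀ X : 𝒱.Obj, X.Cycles → Prop) (n ν i : ℕ) : Prop :=
  ∀ X D, X.dim = n → Pol X D →
    entirePart (ρ X) χ L Fr ν (W.gr X i) = geoConiveau W X ν i

/-- For the members of dimension `n` the codimension of `N^ν H^i(X)` in `N_ℓ^ν H^i(X)` is at most
`d`. -/
def GenTateUpTo (W : WeilCohomology.{u, v} ops) {G P : Type*} [Group G]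
    (ρ : ∀ X : 𝒱.Obj, Representation W.K G (W.H X)) (χ : G →* W.Kˣ) (L : Filter P)
    (Fr : P → Set G) (Pol : ∀ X : 𝒱.Obj, X.Cycles → Prop) (n ν i d : ℕ) : Prop :=
  ∀ X D, X.dim = n → Pol X D →
    CodimAtMost (geoConiveau W X ν i) (entirePart (ρ X) χ L Fr ν (W.gr X i)) d

/-- On some complete intersection `V` in `S^N` of the dimension of `S`, for some `N`, the codimension
of `N^ν H^i(V)` in `N_ℓ^ν H^i(V)` is less than `N / dim H(S)`. -/
def HasGoodTatePower (W : WeilCohomology.{u, v} ops) {G P : Type*} [Group G]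
    (ρ : ∀ X : 𝒱.Obj, Representation W.K G (W.H X)) (χ : G →* W.Kˣ) (L : Filter P)
    (Fr : P → Set G) (S : 𝒱.Obj) (D : S.Cycles) (ν i : ℕ) : Prop :=
  ∃ (N : ℕ) (V : 𝒱.Obj) (A : V.Cycles) (d : ℕ), IsPowerOf W D N A ∧
    d * totalBetti W S < N ∧
    CodimAtMost (geoConiveau W V ν i) (entirePart (ρ V) χ L Fr ν (W.gr V i)) d

end Pool.Agent.H44T.BR
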