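import Pool.Agent.H44T.BR.SocAlg
import Pool.Agent.H44T.BR.Good

/-!
# Semisimplicity of the Galois representations up to errors of bounded rank
-/

open CategoryTheory AlgebraicGeometry Finset

set_option linter.unusedSectionVars false

universe u v

namespace Pool.Agent.H44T.BR

open Pool.Agent.H914 Pool.Agent.H914.VarClass Pool.Agent.H914.VarClass.Obj
  Pool.Agent.H914.WeilCohomology Pool.Agent.V1144.Pw

variable {k : Type u} [Field k] {𝒱 : VarClass k} {ops : CycleOps 𝒱}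
  {W : WeilCohomology.{u, v} ops} {S V R X Y : 𝒱.Obj} {G : Type*} [Group G]
  {ρ : ∀ X : 𝒱.Obj, Representation W.K G (W.H X)} {χ : G →* W.Kˣ}

lemma gal_surj (g : G) (y : W.H X) : ∃ z, ρ X g z = y :=
  ⟨ρ X g⁻¹ y, by rw [← Module.End.mul_apply, ← map_mul, mul_inv_cancel, map_one,
    Module.End.one_apply]⟩

lemma gal_push (hG : IsGaloisAction W ρ χ) (f : X ⟶ Y) (hXY : X.dim = Y.dim) :
    Commutes (ρ X) (ρ Y) (W.push f) := by
  intro g x
  apply W.tr_ext
  intro y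
  obtain ⟨z, rfl⟩ := gal_surj (ρ := ρ) (X := Y) g y
  have h1 : W.map f (ρ Y g z) = ρ X g (W.map f z) := hG.natural f g z
  rw [W.tr_push, h1, ← hG.mul X, ← hG.mul Y, hG.tr X g, hG.tr Y g, W.tr_push, hXY]

lemma gal_pow (hG : IsGaloisAction W ρ χ) {D : X.Cycles} (hD : X.IsCyc 1 D) (j : ℕ) (g : G) :
    ρ X g (W.cl X D ^ j) = ((χ g : W.K) ^ j) • W.cl X D ^ j := by
  have h1 : ρ X g (W.cl X D) = ((χ g : W.K) ^ 1) • W.cl X D := hG.cyc X 1 D hD g
  rw [pow_one] at h1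
  have h0 : ρ X g 1 = 1 := by
    obtain ⟨z, hz⟩ := gal_surj (ρ := ρ) (X := X) g 1
    have h2 := hG.mul X g 1 z
    rw [one_mul, hz, mul_one] at h2
    exact h2.symm
  induction j with
  | zero => rw [pow_zero, pow_zero, one_smul, h0]
  | succ j ih =>
    rw [pow_succ, hG.mul X, ih, h1, smul_mul_smul_comm, ← pow_succ, ← pow_succ]

lemma push_gr' (f : X ⟶ Y) (hXY : X.dim = Y.dim) {i : ℕ} {x : W.H X} (hx : x ∈ W.gr X i) :
    W.push f x ∈ W.gr Y i := by
  have h1 := W.push_mem f hx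
  rwa [show (i : ℤ) + 2 * ((Y.dim : ℤ) - X.dim) = i by omega, grZ_natCast] at h1

/-- The pair of `H^i(X)` and its socle. -/
lemma pair_socle (hG : IsGaloisAction W ρ χ) {Pol : ∀ X : 𝒱.Obj, X.Cycles → Prop} {n : ℕ}
    (hP : HasPowers W Pol n) (i : ℕ) : IsFunctorialPair W Pol n i (fun X => W.gr X i)
      (fun X => socle (ρ X) (W.gr X i)) where
  deg X _ := le_rfl
  le X _ := socle_le _
  pull f _ _ x hx := W.map_mem f hx
  push {X Y} f hX hY x hx :=
    map_socle (gal_push hG f (hX.trans hY.symm))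
      (fun _ hz => push_gr' f (hX.trans hY.symm) hz) hx
  power X D _ hD j hj _ := by
    left
    refine mem_socle ?_ fun g => ⟨_, gal_pow hG (hP.cyc X D hD) j g⟩
    rw [hj]
    exact pow_mem_gr (W.cl_mem (hP.cyc X D hD)) j

/-- **Bounded defects of the socle vanish.** -/
theorem galSemisimple_iff (hG : IsGaloisAction W ρ χ) {Pol : ∀ X : 𝒱.Obj, X.Cycles → Prop}
    {n : ℕ} (hP : HasPowers W Pol n) (i : ℕ) :
    GalSemisimple W ρ Pol n i ↔ ∃ d, GalSemisimpleUpTo W ρ Pol n i d := by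
  have h1 := pair_iff hP (pair_socle hG hP i)
  constructor
  · intro h
    obtain ⟨d, hd⟩ := h1.1 fun X D hX hD => semisimple_iff_socle.1 (h X D hX hD)
    exact ⟨d, fun X D hX hD => upTo_iff.2 (hd X D hX hD)⟩
  · rintro ⟨d, hd⟩ X D hX hD
    exact semisimple_iff_socle.2
      (h1.2 ⟨d, fun X D hX hD => upTo_iff.1 (hd X D hX hD)⟩ X D hX hD)

/-- **A small defect on one power.** -/
theorem galSemisimple_of_power (hG : IsGaloisAction W ρ χ)
    {Pol : ∀ X : 𝒱.Obj, X.Cycles → Prop} {n : ℕ} (hP : HasPowers W Pol n) (i : ℕ)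
    {S : 𝒱.Obj} {D : S.Cycles} (hS : S.dim = n) (hSD : Pol S D)
    (h : HasGoodGalPower W ρ S D i) : IsSemisimpleOn (ρ S) (W.gr S i) := by
  obtain ⟨N, V, A, d, hV, hN, hd⟩ := h
  exact semisimple_iff_socle.2 (pair_good (pair_socle hG hP i) hS hSD (hP.cyc S D hSD)
    (hP.hard S D hSD) hV (upTo_iff.1 hd) hN)

end Pool.Agent.H44T.BR
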