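import Pool.Agent.H44T.BR.ConDefs
import Pool.Agent.H44T.BR.Soc

/-!
# Coniveau up to errors of bounded dimension
-/

open CategoryTheory AlgebraicGeometry Finset Polynomial

set_option linter.unusedSectionVars false

universe u v

namespace Pool.Agent.H44T.BR

open Pool.Agent.H914 Pool.Agent.H914.VarClass Pool.Agent.H914.VarClass.Obj
  Pool.Agent.H914.WeilCohomology Pool.Agent.V1144.Pw

variable {k : Type u} [Field k] {𝒱 : VarClass k} {ops : CycleOps 𝒱}
  {W : WeilCohomology.{u, v} ops} {S V R X Y : 𝒱.Obj}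

section Alg

variable {K M M' : Type*} [Field K] [AddCommGroup M] [Module K M] [AddCommGroup M'] [Module K M']

lemma aeval_intertwine {A : Module.End K M} {B : Module.End K M'} {φ : M →ₗ[K] M'}
    (h : ∀ x, φ (A x) = B (φ x)) (p : ℤ[X]) (x : M) : φ (aeval A p x) = aeval B p (φ x) := by
  have hpow : ∀ (n : ℕ) (x : M), φ ((A ^ n) x) = (B ^ n) (φ x) := by
    intro n
    induction n with
    | zero => intro x; simp
    | succ n ih => intro x; rw [pow_succ, pow_succ, Module.End.mul_apply, Module.End.mul_apply,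
        ih, h]
  induction p using Polynomial.induction_on' with
  | add p q hp hq => rw [map_add, map_add, LinearMap.add_apply, LinearMap.add_apply, map_add, hp, hq]
  | monomial n a =>
    rw [aeval_monomial, aeval_monomial, Module.End.mul_apply, Module.End.mul_apply]
    have e1 : (algebraMap ℤ (Module.End K M) a) ((A ^ n) x) = a • (A ^ n) x := by
      rw [Algebra.algebraMap_eq_smul_one, LinearMap.smul_apply, Module.End.one_apply]
    have e2 : (algebraMap ℤ (Module.End K M') a) ((B ^ n) (φ x)) = a • (B ^ n) (φ x) := by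
      rw [Algebra.algebraMap_eq_smul_one, LinearMap.smul_apply, Module.End.one_apply]
    rw [e1, e2, map_zsmul, hpow]

lemma entireAt_map {A : Module.End K M} {B : Module.End K M'} {φ : M →ₗ[K] M'} {q : K} {ν ν' : ℕ}
    (h : ∀ x, φ (((q ^ ν)⁻¹ • A) x) = ((q ^ ν')⁻¹ • B) (φ x)) {U : Submodule K M}
    (hU : EntireAt A q ν U) : EntireAt B q ν' (U.map φ) := by
  obtain ⟨p, hp, hp'⟩ := hU
  refine ⟨p, hp, ?_⟩
  rintro _ ⟨x, hx, rfl⟩
  rw [← aeval_intertwine h, hp' x hx, map_zero]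

end Alg

section gal

variable {G P : Type*} [Group G] {ρ : ∀ X : 𝒱.Obj, Representation W.K G (W.H X)} {χ : G →* W.Kˣ}
  {L : Filter P} {Fr : P → Set G}

lemma gysin_comm (hG : IsGaloisAction W ρ χ) (g : Y ⟶ X) {ν : ℕ} (hd : Y.dim + ν = X.dim) (σ : G)
    (y : W.H Y) : ρ X σ (W.push g y) = ((χ σ : W.K) ^ ν) • W.push g (ρ Y σ y) := by
  apply W.tr_ext
  intro z
  obtain ⟨w, rfl⟩ := gal_surj (ρ := ρ) (X := X) σ z
  have h1 : W.map g (ρ X σ w) = ρ Y σ (W.map g w) := hG.natural g σ w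
  rw [smul_mul_assoc, map_smul, W.tr_push, h1, ← hG.mul X, ← hG.mul Y, hG.tr X σ, hG.tr Y σ,
    W.tr_push, smul_eq_mul, ← mul_assoc, ← pow_add, add_comm ν, hd]

lemma geo_push (f : X ⟶ Y) (hXY : X.dim = Y.dim) {ν i : ℕ} {x : W.H X}
    (hx : x ∈ geoConiveau W X ν i) : W.push f x ∈ geoConiveau W Y ν i := by
  induction hx using Submodule.span_induction with
  | mem x hx =>
    obtain ⟨Z, g, hZ, y, hy, rfl⟩ := hx
    exact Submodule.subset_span ⟨Z, g ≫ f, hZ.trans hXY, y, hy, W.push_comp _ _ _⟩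
  | zero => rw [map_zero]; exact Submodule.zero_mem _
  | add x y _ _ hx hy => rw [map_add]; exact Submodule.add_mem _ hx hy
  | smul a x _ hx => rw [map_smul]; exact Submodule.smul_mem _ _ hx

lemma gysin_gr (g : Y ⟶ X) {ν i : ℕ} (hd : Y.dim + ν = X.dim) (hi : 2 * ν ≤ i) {y : W.H Y}
    (hy : y ∈ W.gr Y (i - 2 * ν)) : W.push g y ∈ W.gr X i := by
  have h1 := W.push_mem g hy
  rwa [show ((i - 2 * ν : ℕ) : ℤ) + 2 * ((X.dim : ℤ) - Y.dim) = i by omega, grZ_natCast] at h1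

lemma geo_gr {ν i : ℕ} (hi : 2 * ν ≤ i) : geoConiveau W X ν i ≤ W.gr X i := by
  refine Submodule.span_le.2 ?_
  rintro _ ⟨Y, g, hd, y, hy, rfl⟩
  exact gysin_gr g hd hi hy

/-- The powers of the class of the polarization are supported in codimension `ν`. -/
lemma pow_mem_geo {Pol : ∀ X : 𝒱.Obj, X.Cycles → Prop} {n ν : ℕ}
    (hS : HasPlaneSections W Pol n ν) {D : X.Cycles} (hX : X.dim = n) (hP : Pol X D)
    (hD : X.IsCyc 1 D) {i j : ℕ} (hj : i = 2 * j) (hν : ν ≤ j) :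
    W.cl X D ^ j ∈ geoConiveau W X ν i := by
  obtain ⟨Y, g, q, hd, hq, hg⟩ := hS X D hX hP
  have hg' : W.push g 1 = (q : W.K) • W.cl X D ^ ν := hg
  have hq' : (q : W.K) ≠ 0 := by exact_mod_cast hq
  have h1 : W.push g (W.map g (W.cl X D ^ (j - ν))) = (q : W.K) • W.cl X D ^ j := by
    have h2 := W.push_mul g 1 (W.cl X D ^ (j - ν))
    rw [one_mul, hg', smul_mul_assoc, ← pow_add, Nat.add_sub_cancel' hν] at h2
    exact h2
  have h3 : (q : W.K) • W.cl X D ^ j ∈ geoConiveau W X ν i := by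
    rw [← h1]
    refine Submodule.subset_span ⟨Y, g, hd, _, ?_, rfl⟩
    have h4 := W.map_mem g (pow_mem_gr (W.cl_mem hD) (j - ν))
    rwa [show 2 * (j - ν) = i - 2 * ν by omega] at h4
  have h5 := Submodule.smul_mem _ (q : W.K)⁻¹ h3
  rwa [smul_smul, inv_mul_cancel₀ hq', one_smul] at h5

lemma entirePart_le {ν : ℕ} {U : Submodule W.K (W.H X)} :
    entirePart (ρ X) χ L Fr ν U ≤ U := sSup_le fun _ h => h.1

lemma entirePart_map (hG : IsGaloisAction W ρ χ) (f : X ⟶ Y) {ν i : ℕ} {y : W.H Y}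
    (hy : y ∈ entirePart (ρ Y) χ L Fr ν (W.gr Y i)) :
    W.map f y ∈ entirePart (ρ X) χ L Fr ν (W.gr X i) := by
  have h1 : entirePart (ρ Y) χ L Fr ν (W.gr Y i) ≤
      (entirePart (ρ X) χ L Fr ν (W.gr X i)).comap (W.map f).toLinearMap := by
    refine sSup_le ?_
    rintro U ⟨hU, hs, he⟩
    rw [← Submodule.map_le_iff_le_comap]
    refine le_sSup ⟨?_, ?_, ?_⟩
    · rintro _ ⟨x, hx, rfl⟩
      exact W.map_mem f (hU hx)
    · rintro g _ ⟨x, hx, rfl⟩
      exact ⟨ρ Y g x, hs g x hx, hG.natural f g x⟩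
    · filter_upwards [he] with v hv g hg
      refine entireAt_map ?_ (hv g hg)
      intro x
      rw [LinearMap.smul_apply, LinearMap.smul_apply, map_smul, hG.natural f g x]
  exact h1 hy

lemma geo_le_entirePart (hG : IsGaloisAction W ρ χ) {ν i : ℕ} (hi : 2 * ν ≤ i)
    (hE : AllEntire W ρ χ L Fr (i - 2 * ν)) :
    geoConiveau W X ν i ≤ entirePart (ρ X) χ L Fr ν (W.gr X i) := by
  refine Submodule.span_le.2 ?_
  rintro _ ⟨Y, g, hd, y, hy, rfl⟩
  have h1 : (W.gr Y (i - 2 * ν)).map (W.push g) ≤ entirePart (ρ X) χ L Fr ν (W.gr X i) := by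
    refine le_sSup ⟨?_, ?_, ?_⟩
    · rintro _ ⟨x, hx, rfl⟩
      exact gysin_gr g hd hi hx
    · rintro σ _ ⟨x, hx, rfl⟩
      rw [gysin_comm hG g hd σ x]
      exact Submodule.smul_mem _ _ ⟨ρ Y σ x, hG.gr Y _ σ x hx, rfl⟩
    · filter_upwards [hE Y] with v hv σ hσ
      refine entireAt_map ?_ (hv σ hσ)
      intro x
      have hχ : (χ σ : W.K) ^ ν ≠ 0 := pow_ne_zero _ (Units.ne_zero _)
      rw [pow_zero, inv_one, one_smul, LinearMap.smul_apply, gysin_comm hG g hd σ x, smul_smul,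
        inv_mul_cancel₀ hχ, one_smul]
  exact h1 ⟨y, hy, rfl⟩

/-- The pair of the Galois coniveau and the geometric coniveau. -/
lemma pair_coniveau (hG : IsGaloisAction W ρ χ) {Pol : ∀ X : 𝒱.Obj, X.Cycles → Prop} {n ν i : ℕ}
    (hi : 2 * ν ≤ i) (hP : HasPowers W Pol n) (hS : HasPlaneSections W Pol n ν)
    (hE : AllEntire W ρ χ L Fr (i - 2 * ν)) :
    IsFunctorialPair W Pol n i (fun X => entirePart (ρ X) χ L Fr ν (W.gr X i))
      (fun X => geoConiveau W X ν i) where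
  deg X _ := entirePart_le
  le X _ := geo_le_entirePart hG hi hE
  pull f _ _ x hx := entirePart_map hG f hx
  push {X Y} f hX hY x hx := geo_push f (hX.trans hY.symm) hx
  power X D hX hD j hj _ := Or.inl (pow_mem_geo hS hX hD (hP.cyc X D hD) hj (by omega))

/-- **Bounded defects of the coniveau vanish.** -/
theorem genTate_iff (hG : IsGaloisAction W ρ χ) {Pol : ∀ X : 𝒱.Obj, X.Cycles → Prop} {n ν i : ℕ}
    (hi : 2 * ν ≤ i) (hP : HasPowers W Pol n) (hS : HasPlaneSections W Pol n ν)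
    (hE : AllEntire W ρ χ L Fr (i - 2 * ν)) :
    GenTate W ρ χ L Fr Pol n ν i ↔ ∃ d, GenTateUpTo W ρ χ L Fr Pol n ν i d :=
  pair_iff hP (pair_coniveau hG hi hP hS hE)

/-- **A small defect on one power.** -/
theorem genTate_of_power (hG : IsGaloisAction W ρ χ) {Pol : ∀ X : 𝒱.Obj, X.Cycles → Prop}
    {n ν i : ℕ} (hi : 2 * ν ≤ i) (hP : HasPowers W Pol n) (hS : HasPlaneSections W Pol n ν)
    (hE : AllEntire W ρ χ L Fr (i - 2 * ν)) {S : 𝒱.Obj} {D : S.Cycles} (hSn : S.dim = n)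
    (hSD : Pol S D) (h : HasGoodTatePower W ρ χ L Fr S D ν i) :
    entirePart (ρ S) χ L Fr ν (W.gr S i) = geoConiveau W S ν i := by
  obtain ⟨N, V, A, d, hV, hN, hd⟩ := h
  exact pair_good (pair_coniveau hG hi hP hS hE) hSn hSD (hP.cyc S D hSD) (hP.hard S D hSD)
    hV hd hN

end gal

end Pool.Agent.H44T.BR
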