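import Pool.Agent.V1144.Pw.Defs2

/-!
# Inverse Lefschetz operators up to errors of bounded rank: definitions
-/

open CategoryTheory AlgebraicGeometry

universe u v

namespace Pool.Agent.H44T.BR

open Pool.Agent.H914 Pool.Agent.H914.VarClass Pool.Agent.H914.VarClass.Obj
  Pool.Agent.H914.WeilCohomology Pool.Agent.V1144.Pw

section Alg

variable {K A B : Type*} [Field K] [Ring A] [Algebra K A] [Ring B] [Algebra K B]

/-- The homomorphism `f : A → B` maps `A^i` onto `B^i` for all `i < n`. -/
def OntoBelow (grA : ℕ → Submodule K A) (grB : ℕ → Submodule K B) (f : A →ₐ[K] B) (n : ℕ) : Prop :=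
  ∀ i < n, ∀ v ∈ grB i, ∃ w ∈ grA i, f w = v

/-- `x` is the multiple `q y ^ m` of `y ^ m`. -/
def IsMulPow (q : K) (m : ℕ) (x y : A) : Prop := x = q • y ^ m

/-- `y` is the image of `x`. -/
def IsImage (f : A →ₐ[K] B) (x : A) (y : B) : Prop := y = f x

/-- The linear form `t` does not vanish on `x ^ m`. -/
def PowNonzero (t : A →ₗ[K] K) (x : A) (m : ℕ) : Prop := t (x ^ m) ≠ 0

/-- The operator `T` is the identity on a subspace of `U` of codimension at most `d`. -/
def FixesUpTo {V : Type*} [AddCommGroup V] [Module K V] (U : Submodule K V) (T : V →ₗ[K] V)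
    (d : ℕ) : Prop :=
  ∃ F ≤ U, (∀ a ∈ F, T a = a) ∧ Module.finrank K U ≤ Module.finrank K F + d

end Alg

variable {k : Type u} [Field k] {𝒱 : VarClass k} {ops : CycleOps 𝒱}

/-- The divisor `D × R + S × E` on `S × R`. -/
noncomputable def sumDiv (ops : CycleOps 𝒱) {S R : 𝒱.Obj} (D : S.Cycles) (E : R.Cycles) :
    (S.prod R).Cycles :=
  ops.pull (fst S R) D + ops.pull (snd S R) E

/-- The class of `D × R + S × E`. -/
noncomputable def sumClass (W : WeilCohomology.{u, v} ops) {S R : 𝒱.Obj} (D : S.Cycles)
    (E : R.Cycles) : W.H (S.prod R) := W.cl _ (sumDiv ops D E)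

/-- The push-forward `f_* 1` of the fundamental class. -/
noncomputable def pushOne (W : WeilCohomology.{u, v} ops) {V Y : 𝒱.Obj} (f : V ⟶ Y) : W.H Y :=
  W.push f 1

/-- The morphism `f : V ⟶ S × R` behaves like the inclusion of a smooth complete intersection of
`dim R` ample divisors in multiples of the class `D × R + S × E`, and `A` is the restriction of this
class: the class of `V` in `S × R` is `c (D × R + S × E) ^ dim R`, and the restriction of the
cohomology of `S × R` to `V` is surjective in degrees less than `dim S` (Lefschetz hyperplane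
theorem). -/
structure IsSection (W : WeilCohomology.{u, v} ops) {S V R : 𝒱.Obj} (D : S.Cycles) (E : R.Cycles)
    (A : V.Cycles) (c : ℚ) (f : V ⟶ S.prod R) : Prop where
  cl : IsImage (W.map f) (sumClass W D E) (W.cl V A)
  push : IsMulPow (c : W.K) R.dim (pushOne W f) (sumClass W D E)
  weak : OntoBelow (W.gr (S.prod R)) (W.gr V) (W.map f) S.dim

/-- The projection `V ⟶ S` given by `g` factors through the projection `V ⟶ R` given by `f`. -/
def FactorsThrough {S V R : 𝒱.Obj} (f g : V ⟶ S.prod R) : Prop :=
  ∃ q : R ⟶ S, g ≫ fst S R = f ≫ snd S R ≫ q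

/-- The divisor `A` on `V` and the divisor `E` on `R` have codimension one, hard Lefschetz holds for
`A`, and the degree of `E` is not zero. -/
structure IsPair (W : WeilCohomology.{u, v} ops) (V R : 𝒱.Obj) (E : R.Cycles) (A : V.Cycles) :
    Prop where
  cycE : R.IsCyc 1 E
  cycA : V.IsCyc 1 A
  hard : HardLefschetz W V A
  trE : PowNonzero (W.tr R) (W.cl R E) R.dim

/-- The properties of a complete intersection `V ⊆ S^N` of dimension `n = dim S` of
`n (N - 1) = dim R` divisors in multiples of the class `D + ... + D`, `R = S^(N-1)`, with the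
divisor `E = D + ... + D` on `R` and the restriction `A` of the divisor `D + ... + D` to `V`: the map
`f l : V ⟶ S × R` is the inclusion, with the `l`-th factor of `S^N` written first, and for `m ≠ l` the
projection of `V` to the `m`-th factor factors through `R`. -/
structure IsPower (W : WeilCohomology.{u, v} ops) {S V R : 𝒱.Obj} (D : S.Cycles) (E : R.Cycles)
    (A : V.Cycles) {N : ℕ} (f : Fin N → (V ⟶ S.prod R)) (c : ℚ) : Prop where
  dim : V.dim = S.dim
  pair : IsPair W V R E A
  ne_zero : c ≠ 0
  sect : ∀ l, IsSection W D E A c (f l)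
  factor : ∀ l m, l ≠ m → FactorsThrough (f l) (f m)

/-- The pair `(V, A)` is a complete intersection of dimension `dim S` in the product of `N` copies of
`S`, with the restriction of the divisor `D + ... + D`. -/
def IsPowerOf (W : WeilCohomology.{u, v} ops) {S V : 𝒱.Obj} (D : S.Cycles) (N : ℕ)
    (A : V.Cycles) : Prop :=
  ∃ (R : 𝒱.Obj) (E : R.Cycles) (f : Fin N → (V ⟶ S.prod R)) (c : ℚ), IsPower W D E A f c

/-- `Pol` is a class of pairs `(X, D)`, for example all pairs of a smooth projective variety and an
ample divisor, such that hard Lefschetz holds and, for the members of dimension `n`, the complete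
intersections `V ⊆ S^N` exist, for all `N`, with the induced polarization in the class. -/
structure HasPowers (W : WeilCohomology.{u, v} ops) (Pol : ∀ X : 𝒱.Obj, X.Cycles → Prop)
    (n : ℕ) : Prop where
  cyc : ∀ X D, Pol X D → X.IsCyc 1 D
  hard : ∀ X D, Pol X D → HardLefschetz W X D
  power : ∀ (S : 𝒱.Obj) (D : S.Cycles) (N : ℕ), S.dim = n → Pol S D →
    ∃ (V : 𝒱.Obj) (A : V.Cycles), Pol V A ∧ IsPowerOf W D N A

/-- Some linear combination of cycles of codimension `i` on `X × X`, with coefficients in the
coefficient field, inverts `ξ ^ (dim X - i)`, `ξ` the class of `D`, on a subspace of `H^i(X)` of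
codimension at most `d`. -/
def InvertsUpTo (W : WeilCohomology.{u, v} ops) (X : 𝒱.Obj) (D : X.Cycles) (i d : ℕ) : Prop :=
  ∃ γ ∈ spanCycles W (X.prod X) (i : ℤ),
    FixesUpTo (W.gr X i) (Pool.Agent.Y106.One.corrLef W X D i γ) d

/-- The conjecture B for the members of dimension `n` of the class `Pol`. -/
def ConjB (W : WeilCohomology.{u, v} ops) (Pol : ∀ X : 𝒱.Obj, X.Cycles → Prop) (n : ℕ) : Prop :=
  ∀ X D, X.dim = n → Pol X D → LefschetzB W X D

/-- For the members `(X, D)` of dimension `n` of the class `Pol` and `0 < i < n` the inverse of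
`ξ ^ (n - i)` on `H^i(X)` is algebraic up to an error of rank at most `d`. -/
def ErrorsAtMost (W : WeilCohomology.{u, v} ops) (Pol : ∀ X : 𝒱.Obj, X.Cycles → Prop)
    (n d : ℕ) : Prop :=
  ∀ X D, X.dim = n → Pol X D → ∀ i, 0 < i → i < n → InvertsUpTo W X D i d

/-- The total Betti number. -/
noncomputable def totalBetti (W : WeilCohomology.{u, v} ops) (S : 𝒱.Obj) : ℕ :=
  Module.finrank W.K (W.H S)

/-- On some complete intersection `V` in `S^N` of the dimension of `S`, for some `N`, the inverses of
the operators `ξ_V ^ (n - i)`, `0 < i < n`, are algebraic up to errors of rank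
less than `N / dim H(S)`. -/
def HasGoodPower (W : WeilCohomology.{u, v} ops) (S : 𝒱.Obj) (D : S.Cycles) : Prop :=
  ∃ (N : ℕ) (V : 𝒱.Obj) (A : V.Cycles), IsPowerOf W D N A ∧ ∀ i, 0 < i → i < S.dim →
    ∃ d, d * totalBetti W S < N ∧ InvertsUpTo W V A i d

end Pool.Agent.H44T.BR
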