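import Pool.Agent.H44T.BR.Pair
import Pool.Agent.H44T.BR.FrobDefs

/-!
# Jordan blocks of the Frobenius
-/

open CategoryTheory AlgebraicGeometry Finset

set_option linter.unusedSectionVars false

universe u v

namespace Pool.Agent.H44T.BR

open Pool.Agent.H914 Pool.Agent.H914.VarClass Pool.Agent.H914.VarClass.Obj
  Pool.Agent.H914.WeilCohomology Pool.Agent.V1144.Pw

variable {k : Type u} [Field k] {𝒱 : VarClass k} {ops : CycleOps 𝒱}
  {W : WeilCohomology.{u, v} ops} {S V R X Y : 𝒱.Obj} {Fr : ∀ X : 𝒱.Obj, X ⟶ X} {q : ℕ}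

lemma frob_apply (x : W.H X) : frob W Fr X x = W.map (Fr X) x := rfl

section frob

variable (hF : IsFrobenius W q Fr)
include hF

lemma frob_mul (x y : W.H X) : frob W Fr X (x * y) = frob W Fr X x * frob W Fr X y :=
  map_mul (W.map (Fr X)) x y

lemma frob_map (f : X ⟶ Y) (y : W.H Y) : frob W Fr X (W.map f y) = W.map f (frob W Fr Y y) := by
  rw [frob_apply, frob_apply, ← W.map_comp, ← W.map_comp, hF.natural]

lemma q_ne : (q : W.K) ≠ 0 := by exact_mod_cast hF.pos

lemma frob_inj {x : W.H X} (hx : frob W Fr X x = 0) : x = 0 := by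
  apply W.nondeg
  intro y
  have h1 := hF.tr X (x * y)
  rw [frob_mul hF, hx, zero_mul, map_zero] at h1
  exact (mul_eq_zero.1 h1.symm).resolve_left (pow_ne_zero _ (q_ne hF))

lemma frob_surj : Function.Surjective (frob W Fr X) :=
  LinearMap.injective_iff_surjective.1
    ((injective_iff_map_eq_zero _).2 fun _ hx => frob_inj hF hx)

lemma frob_push (f : X ⟶ Y) (hXY : X.dim = Y.dim) (x : W.H X) :
    W.push f (frob W Fr X x) = frob W Fr Y (W.push f x) := by
  apply W.tr_ext
  intro y
  obtain ⟨z, rfl⟩ := frob_surj (X := Y) hF y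
  rw [W.tr_push, ← frob_map hF, ← frob_mul hF, ← frob_mul hF, hF.tr X, hF.tr Y, W.tr_push, hXY]

lemma frob_gr {i : ℕ} {x : W.H X} (hx : x ∈ W.gr X i) : frob W Fr X x ∈ W.gr X i :=
  W.map_mem _ hx

lemma push_gr (f : X ⟶ Y) (hXY : X.dim = Y.dim) {i : ℕ} {x : W.H X} (hx : x ∈ W.gr X i) :
    W.push f x ∈ W.gr Y i := by
  have h1 := W.push_mem f hx
  rwa [show (i : ℤ) + 2 * ((Y.dim : ℤ) - X.dim) = i by omega, grZ_natCast] at h1

lemma frob_sub_pow_push (f : X ⟶ Y) (hXY : X.dim = Y.dim) (α : W.K) (m : ℕ) (x : W.H X) :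
    ((frob W Fr Y - α • (1 : Module.End W.K (W.H Y))) ^ m) (W.push f x) =
      W.push f (((frob W Fr X - α • (1 : Module.End W.K (W.H X))) ^ m) x) := by
  induction m generalizing x with
  | zero => simp
  | succ m ih =>
    rw [pow_succ, pow_succ, Module.End.mul_apply, Module.End.mul_apply, ← ih]
    congr 1
    rw [LinearMap.sub_apply, LinearMap.sub_apply, LinearMap.smul_apply, LinearMap.smul_apply,
      Module.End.one_apply, Module.End.one_apply, map_sub, map_smul, frob_push hF f hXY]

lemma frob_sub_pow_map (f : X ⟶ Y) (α : W.K) (m : ℕ) (y : W.H Y) :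
    ((frob W Fr X - α • (1 : Module.End W.K (W.H X))) ^ m) (W.map f y) =
      W.map f (((frob W Fr Y - α • (1 : Module.End W.K (W.H Y))) ^ m) y) := by
  induction m generalizing y with
  | zero => simp
  | succ m ih =>
    rw [pow_succ, pow_succ, Module.End.mul_apply, Module.End.mul_apply, ← ih]
    congr 1
    rw [LinearMap.sub_apply, LinearMap.sub_apply, LinearMap.smul_apply, LinearMap.smul_apply,
      Module.End.one_apply, Module.End.one_apply, map_sub, map_smul, frob_map hF f]

lemma frob_pow {D : X.Cycles} (hD : X.IsCyc 1 D) (j : ℕ) :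
    frob W Fr X (W.cl X D ^ j) = ((q : W.K) ^ j) • W.cl X D ^ j := by
  have h1 : frob W Fr X (W.cl X D) = ((q : W.K) ^ 1) • W.cl X D := hF.cyc X 1 D hD
  rw [pow_one] at h1
  rw [frob_apply, map_pow, ← frob_apply, h1, smul_pow]

/-- The pair of `H^i(X)` and the span of the eigenvectors. -/
lemma pair_eigenSpan {Pol : ∀ X : 𝒱.Obj, X.Cycles → Prop} {n : ℕ} (hP : HasPowers W Pol n)
    (i : ℕ) : IsFunctorialPair W Pol n i (fun X => W.gr X i)
      (fun X => eigenSpan (W.gr X i) (frob W Fr X)) where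
  deg X _ := le_rfl
  le X _ := Submodule.span_le.2 fun x hx => hx.1
  pull f _ _ x hx := W.map_mem f hx
  push {X Y} f hX hY x hx := by
    have hXY : X.dim = Y.dim := hX.trans hY.symm
    induction hx using Submodule.span_induction with
    | mem x hx =>
      obtain ⟨hx1, α, hα⟩ := hx
      refine Submodule.subset_span ⟨push_gr hF f hXY hx1, α, ?_⟩
      rw [← frob_push hF f hXY, hα, map_smul]
    | zero => rw [map_zero]; exact Submodule.zero_mem _
    | add x y _ _ hx hy => rw [map_add]; exact Submodule.add_mem _ hx hy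
    | smul a x _ hx => rw [map_smul]; exact Submodule.smul_mem _ _ hx
  power X D _ hD j hj _ := by
    left
    refine Submodule.subset_span ⟨?_, (q : W.K) ^ j, frob_pow hF (hP.cyc X D hD) j⟩
    rw [hj]
    exact pow_mem_gr (W.cl_mem (hP.cyc X D hD)) j

/-- The pair of the generalised eigenspace and the eigenspace. -/
lemma pair_eig {Pol : ∀ X : 𝒱.Obj, X.Cycles → Prop} {n : ℕ} (hP : HasPowers W Pol n)
    (i : ℕ) (α : W.K) : IsFunctorialPair W Pol n i
      (fun X => genSpace (W.gr X i) (frob W Fr X) α)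
      (fun X => eigSpace (W.gr X i) (frob W Fr X) α) where
  deg X _ := inf_le_right
  le X _ := inf_le_inf_right _ (by
    intro x hx
    rw [Module.End.mem_maxGenEigenspace]
    refine ⟨1, ?_⟩
    have h1 := Module.End.mem_eigenspace_iff.1 hx
    rw [pow_one, LinearMap.sub_apply, LinearMap.smul_apply, Module.End.one_apply, h1, sub_self])
  pull {X Y} f _ _ x hx := by
    refine ⟨?_, W.map_mem f hx.2⟩
    obtain ⟨m, hm⟩ := (Module.End.mem_maxGenEigenspace _ _ _).1 hx.1
    refine (Module.End.mem_maxGenEigenspace _ _ _).2 ⟨m, ?_⟩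
    rw [frob_sub_pow_map hF f α m x, hm, map_zero]
  push {X Y} f hX hY x hx := by
    have hXY : X.dim = Y.dim := hX.trans hY.symm
    refine ⟨?_, push_gr hF f hXY hx.2⟩
    have h1 := Module.End.mem_eigenspace_iff.1 hx.1
    rw [SetLike.mem_coe, Module.End.mem_eigenspace_iff, ← frob_push hF f hXY, h1, map_smul]
  power X D hX hD j hj hjn := by
    by_cases hα : α = (q : W.K) ^ j
    · left
      refine ⟨?_, ?_⟩
      · rw [SetLike.mem_coe, Module.End.mem_eigenspace_iff, hα]
        exact frob_pow hF (hP.cyc X D hD) j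
      · rw [hj]
        exact pow_mem_gr (W.cl_mem (hP.cyc X D hD)) j
    · right
      intro x hx
      have key : ∀ y : W.H X, W.tr X (W.cl X D ^ (n - j) * frob W Fr X y) =
          (q : W.K) ^ j * W.tr X (W.cl X D ^ (n - j) * y) := by
        intro y
        have h1 := hF.tr X (W.cl X D ^ (n - j) * y)
        rw [frob_mul hF, frob_pow hF (hP.cyc X D hD), smul_mul_assoc, map_smul, smul_eq_mul, hX]
          at h1
        have h2 : (q : W.K) ^ n = (q : W.K) ^ (n - j) * (q : W.K) ^ j := by
          rw [← pow_add, Nat.sub_add_cancel hjn]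
        rw [h2, mul_assoc] at h1
        exact mul_left_cancel₀ (pow_ne_zero _ (q_ne hF)) h1
      have key2 : ∀ m : ℕ, ∀ y : W.H X, W.tr X (W.cl X D ^ (n - j) *
          ((frob W Fr X - α • (1 : Module.End W.K (W.H X))) ^ m) y) =
          ((q : W.K) ^ j - α) ^ m * W.tr X (W.cl X D ^ (n - j) * y) := by
        intro m
        induction m with
        | zero => intro y; simp
        | succ m ih =>
          intro y
          rw [pow_succ, Module.End.mul_apply, ih, LinearMap.sub_apply, LinearMap.smul_apply,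
            Module.End.one_apply, mul_sub, map_sub, key, mul_smul_comm, map_smul, smul_eq_mul]
          ring
      obtain ⟨m, hm⟩ := (Module.End.mem_maxGenEigenspace _ _ _).1 hx.1
      have h3 := key2 m x
      rw [hm, mul_zero, map_zero] at h3
      exact (mul_eq_zero.1 h3.symm).resolve_left
        (pow_ne_zero _ (sub_ne_zero.2 (Ne.symm hα)))

/-- **Bounded Jordan defects of the Frobenius vanish.** -/
theorem semisimple_iff {Pol : ∀ X : 𝒱.Obj, X.Cycles → Prop} {n : ℕ} (hP : HasPowers W Pol n)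
    (i : ℕ) : AllSemisimple W Fr Pol n i ↔ ∃ d, EigenDefectAtMost W Fr Pol n i d :=
  pair_iff hP (pair_eigenSpan hF hP i)

/-- The same for one eigenvalue. -/
theorem semisimpleAt_iff {Pol : ∀ X : 𝒱.Obj, X.Cycles → Prop} {n : ℕ} (hP : HasPowers W Pol n)
    (i : ℕ) (α : W.K) : SemisimpleAt W Fr Pol n i α ↔ ∃ d, DefectAtMostAt W Fr Pol n i α d :=
  pair_iff hP (pair_eig hF hP i α)

end frob

end Pool.Agent.H44T.BR
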