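import Pool.Agent.H44T.BR.Tr
import Pool.Agent.V1144.Pw.Pow

/-!
# Inverse Lefschetz operators up to errors of bounded rank
-/

open CategoryTheory AlgebraicGeometry Finset

set_option linter.unusedSectionVars false

universe u v

namespace Pool.Agent.H44T.BR

open Pool.Agent.H914 Pool.Agent.H914.VarClass Pool.Agent.H914.VarClass.Obj
  Pool.Agent.H914.WeilCohomology Pool.Agent.V1144.Pw

variable {k : Type u} [Field k] {𝒱 : VarClass k} {ops : CycleOps 𝒱}
  {W : WeilCohomology.{u, v} ops} {S V R X Y : 𝒱.Obj}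

lemma invertsOn_iff {E : Y.Cycles} {i : ℕ} {γ : W.H (Y.prod Y)} {F : Submodule W.K (W.H Y)} :
    InvertsOn W Y E i γ F ↔
      F ≤ W.gr Y i ∧ ∀ a ∈ F, Pool.Agent.Y106.One.corrLef W Y E i γ a = a := by
  rfl

/-! ### Operators -/

lemma map_mem' (f : X ⟶ Y) : (W.map f).toLinearMap ∈ KOp W Y X 0 := by
  have h1 : (W.map f).toLinearMap = W.corr (W.cl _ (ops.push (Obj.lift f (𝟙 X)) X.V.fundCycle)) := by
    apply LinearMap.ext
    intro a
    rw [W.cl_push, W.cl_fund, corr_apply, ← W.push_mul, one_mul, ← W.push_comp, ← W.map_comp]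
    have e1 : Obj.lift f (𝟙 X) ≫ snd Y X = 𝟙 X := Obj.lift_snd _ _
    have e2 : Obj.lift f (𝟙 X) ≫ fst Y X = f := Obj.lift_fst _ _
    rw [e1, e2, W.push_id]
    rfl
  rw [h1]
  refine KOp.gen (p := Y.dim) (by ring) ?_
  exact ops.push_mem _ X.V.fundCycle_mem (by simp only [dim_prod]; ring)

lemma push_mem' (f : X ⟶ Y) (hXY : X.dim = Y.dim) : W.push f ∈ KOp W X Y 0 := by
  have h1 : W.push f = W.corr (W.cl _ (ops.push (Obj.lift (𝟙 X) f) X.V.fundCycle)) := by
    apply LinearMap.ext
    intro a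
    rw [W.cl_push, W.cl_fund, corr_apply, ← W.push_mul, one_mul, ← W.push_comp, ← W.map_comp]
    have e1 : Obj.lift (𝟙 X) f ≫ snd X Y = f := Obj.lift_snd _ _
    have e2 : Obj.lift (𝟙 X) f ≫ fst X Y = 𝟙 X := Obj.lift_fst _ _
    rw [e1, e2, W.map_id]
  rw [h1]
  refine KOp.gen (p := X.dim) (by ring) ?_
  exact ops.push_mem _ X.V.fundCycle_mem (by simp only [dim_prod]; omega)

lemma lef_pow_mem {D : X.Cycles} (hD : X.IsCyc 1 D) (m : ℕ) :
    LinearMap.mulLeft W.K (W.cl X D) ^ m ∈ KOp W X X m := by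
  induction m with
  | zero => rw [pow_zero]; exact KOp.cast (KOp.id X) (by simp)
  | succ m ih =>
    rw [pow_succ']
    have h1 : LinearMap.mulLeft W.K (W.cl X D) ∈ KOp W X X 1 := by
      rw [← mem_KS_iff]
      exact Submodule.subset_span (by simpa using rop_mulLeft (W := W) hD)
    exact KOp.cast (KOp.comp h1 ih) (by push_cast; ring)

lemma mulLeft_pow' (a : W.H X) (m : ℕ) (x : W.H X) :
    (LinearMap.mulLeft W.K a ^ m) x = a ^ m * x := by
  rw [LinearMap.pow_mulLeft, LinearMap.mulLeft_apply]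

/-- A linear relation between the restrictions of many linear maps to a small subspace. -/
lemma exists_relation {K P Q : Type*} [Field K] [AddCommGroup P] [Module K P] [AddCommGroup Q]
    [Module K Q] [Module.Finite K P] [Module.Finite K Q] {N : ℕ} (M : Submodule K P)
    (φ : Fin N → (P →ₗ[K] Q)) (hN : Module.finrank K M * Module.finrank K Q < N) :
    ∃ (c : Fin N → K) (j : Fin N), c j ≠ 0 ∧ ∀ x ∈ M, ∑ l, c l • φ l x = 0 := by
  have h1 : ¬ LinearIndependent K (fun l => φ l ∘ₗ M.subtype) := by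
    intro hli
    have h2 := hli.fintype_card_le_finrank
    rw [Fintype.card_fin, Module.finrank_linearMap] at h2
    omega
  obtain ⟨c, hc, j, hj⟩ := Fintype.not_linearIndependent_iff.1 h1
  refine ⟨c, j, hj, fun x hx => ?_⟩
  have h3 := LinearMap.congr_fun hc ⟨x, hx⟩
  simpa [LinearMap.sum_apply] using h3

section power

variable {D : S.Cycles} {E : R.Cycles} {A : V.Cycles} {N : ℕ} {f : Fin N → (V ⟶ S.prod R)} {c : ℚ}
  (h : IsPower W D E A f c) (hD : S.IsCyc 1 D)
include h hD

/-- An inverse on `V` up to an error of small rank gives an inverse on the primitive classes of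
`S`. -/
lemma IsPower.exists_op {i d : ℕ} (hi0 : 0 < i) (hi : i < S.dim) (hV : InvertsUpTo W V A i d)
    (hN : d * Module.finrank W.K (W.H S) < N) :
    ∃ T ∈ KOp W S S (-((S.dim - i : ℕ) : ℤ)), ∀ x ∈ W.gr S i, W.cl S D ^ (S.dim - i + 1) * x = 0 →
      T (W.cl S D ^ (S.dim - i) * x) = x := by
  obtain ⟨γ, hγ, F, hF, hinv', hdim⟩ := hV
  have hinv : ∀ x ∈ F, W.corr γ (W.cl V A ^ (S.dim - i) * x) = x := by
    intro x hx
    have := (invertsOn_iff (W := W) (E := A) (i := i) (γ := γ) (F := F)).2 ⟨hF, hinv'⟩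
    have h2 := this.2 x hx
    rwa [h.dim] at h2
  have hγ' : W.corr γ ∈ KOp W V V (-((S.dim - i : ℕ) : ℤ)) :=
    mem_KOp_iff.2 ⟨γ, by
      have e : (V.dim : ℤ) + -((S.dim - i : ℕ) : ℤ) = i := by rw [h.dim]; omega
      rw [e]; exact hγ, rfl⟩
  -- the error
  set m : Module.End W.K (W.H V) :=
    1 - W.corr γ * LinearMap.mulLeft W.K (W.cl V A ^ (S.dim - i)) with hm
  have hmy : ∀ y, W.corr γ (W.cl V A ^ (S.dim - i) * y) = y - m y := by
    intro y
    rw [hm, LinearMap.sub_apply, Module.End.one_apply, Module.End.mul_apply,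
      LinearMap.mulLeft_apply, sub_sub_cancel]
  set M := (W.gr V i).map m with hM
  have hMd : Module.finrank W.K M ≤ d := by
    have h1 := (m.domRestrict (W.gr V i)).finrank_range_add_finrank_ker
    have h2 : Module.finrank W.K (LinearMap.range (m.domRestrict (W.gr V i))) =
        Module.finrank W.K M := by
      rw [LinearMap.range_domRestrict]
    have h3 : Module.finrank W.K F ≤
        Module.finrank W.K (LinearMap.ker (m.domRestrict (W.gr V i))) := by
      have h4 : F ≤ (LinearMap.ker (m.domRestrict (W.gr V i))).map (W.gr V i).subtype := by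
        intro x hx
        refine ⟨⟨x, hF hx⟩, ?_, rfl⟩
        have h5 := hmy x
        rw [hinv x hx] at h5
        have h6 : m x = 0 := by
          have := sub_eq_self.1 h5.symm
          exact this
        rw [SetLike.mem_coe, LinearMap.mem_ker]
        exact h6
      exact (Submodule.finrank_mono h4).trans (Submodule.finrank_map_le _ _)
    omega
  obtain ⟨b, j, hj, hrel⟩ := exists_relation M (fun l => W.push (f l ≫ fst S R))
    (lt_of_le_of_lt (Nat.mul_le_mul_right _ hMd) hN)
  set κ := (c : W.K) * W.tr R (W.cl R E ^ R.dim) with hκ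
  have hκ0 : κ ≠ 0 := mul_ne_zero (by exact_mod_cast h.ne_zero) h.pair.trE
  set C := ((R.dim + (S.dim - i)).choose (S.dim - i) : W.K) with hC
  have hC0 : C ≠ 0 := by
    rw [hC]
    exact_mod_cast (Nat.choose_pos (Nat.le_add_left _ _)).ne'
  refine ⟨(C * (κ * b j)⁻¹) • ∑ l, b l • (W.push (f l ≫ fst S R) ∘ₗ W.corr γ ∘ₗ
    (W.map (f j ≫ fst S R)).toLinearMap), ?_, ?_⟩
  · apply Submodule.smul_mem
    apply Submodule.sum_mem
    intro l _
    apply Submodule.smul_mem
    exact KOp.cast (KOp.comp (push_mem' _ h.dim) (KOp.comp hγ' (map_mem' _))) (by ring)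
  · intro x hx hp
    set y := W.map (f j ≫ fst S R) x with hy
    have hyi : y ∈ W.gr V i := W.map_mem _ hx
    have e1 : W.map (f j ≫ fst S R) (W.cl S D ^ (S.dim - i) * x) =
        C⁻¹ • (W.cl V A ^ (S.dim - i) * y) := by
      rw [h.map_prim hD j hi hx hp, smul_smul, inv_mul_cancel₀ hC0, one_smul]
    have e2 : ∀ l, (W.push (f l ≫ fst S R) ∘ₗ W.corr γ ∘ₗ (W.map (f j ≫ fst S R)).toLinearMap)
        (W.cl S D ^ (S.dim - i) * x) =
        C⁻¹ • (W.push (f l ≫ fst S R) y - W.push (f l ≫ fst S R) (m y)) := by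
      intro l
      rw [LinearMap.comp_apply, LinearMap.comp_apply, AlgHom.toLinearMap_apply, e1, map_smul,
        map_smul, hmy, map_sub]
    rw [LinearMap.smul_apply, LinearMap.sum_apply]
    simp only [LinearMap.smul_apply, e2]
    have e3 : ∑ l, b l • C⁻¹ • (W.push (f l ≫ fst S R) y - W.push (f l ≫ fst S R) (m y)) =
        C⁻¹ • (∑ l, b l • W.push (f l ≫ fst S R) y - ∑ l, b l • W.push (f l ≫ fst S R) (m y)) := by
      rw [← Finset.sum_sub_distrib, Finset.smul_sum]
      apply Finset.sum_congr rfl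
      intro l _
      rw [smul_comm, smul_sub (b l)]
    rw [e3, hrel (m y) (Submodule.mem_map_of_mem hyi), sub_zero, Finset.sum_eq_single j]
    · rw [hy, h.push_map hD j x, smul_smul, smul_smul, smul_smul]
      have e4 : C * (κ * b j)⁻¹ * (C⁻¹ * (b j * κ)) = 1 := by
        field_simp
      have e5 : C * (κ * b j)⁻¹ * C⁻¹ * b j * κ = 1 := by
        rw [← e4]; ring
      rw [e5, one_smul]
    · intro l _ hl
      rw [hy, h.push_map_ne hD (Ne.symm hl) hi0 hi.le hx hp, smul_zero]
    · intro h0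
      exact absurd (Finset.mem_univ _) h0

end power

/-- The inverse of `ξ ^ (n - i)` is algebraic if this holds on primitive classes in all degrees. -/
lemma exists_theta {D : S.Cycles} (hD : S.IsCyc 1 D) (hHL : HardLefschetz W S D)
    (hT : ∀ i, 0 < i → i < S.dim → ∃ T ∈ KOp W S S (-((S.dim - i : ℕ) : ℤ)), ∀ x ∈ W.gr S i,
      W.cl S D ^ (S.dim - i + 1) * x = 0 → T (W.cl S D ^ (S.dim - i) * x) = x) (i : ℕ) :
    i ≤ S.dim → ∃ θ ∈ KOp W S S (-((S.dim - i : ℕ) : ℤ)), ∀ y ∈ W.gr S i,
      θ (W.cl S D ^ (S.dim - i) * y) = y := by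
  induction i using Nat.strong_induction_on with
  | _ i ih =>
    intro hi
    rcases Nat.eq_zero_or_pos i with h0 | h0
    · subst h0
      rw [Nat.sub_zero]
      by_cases htop : W.tr S (W.cl S D ^ S.dim) = 0
      · have h2 : W.cl S D ^ S.dim = 0 := by
          apply W.nondeg
          intro b
          refine gr_induction (W.isInternal S) (p := fun b => W.tr S (W.cl S D ^ S.dim * b) = 0)
            ?_ ?_ b
          · intro l b hb
            by_cases hl : l = 0
            · subst hl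
              rw [W.gr_zero] at hb
              obtain ⟨q, rfl⟩ := Submodule.mem_span_singleton.1 hb
              rw [mul_smul_comm, mul_one, map_smul, htop, smul_zero]
            · apply W.tr_eq_zero (W.mul_mem (pow_mem_gr (W.cl_mem hD) S.dim) hb)
              omega
          · intro b b' hb hb'
            rw [mul_add, map_add, hb, hb', add_zero]
        have h3 := (hHL 0 (Nat.zero_le _)).1 1 (W.one_mem S) (by
          rw [mulLeft_pow', Nat.sub_zero, h2, zero_mul])
        refine ⟨0, Submodule.zero_mem _, fun y _ => ?_⟩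
        rw [LinearMap.zero_apply, ← one_mul y, h3, zero_mul]
      refine ⟨(W.tr S (W.cl S D ^ S.dim))⁻¹ • W.corr (W.cl _ (S.prod S).V.fundCycle),
        Submodule.smul_mem _ _ (KOp.gen (p := 0) (by ring) (S.prod S).V.fundCycle_mem), ?_⟩
      intro y hy
      rw [W.gr_zero] at hy
      obtain ⟨q, rfl⟩ := Submodule.mem_span_singleton.1 hy
      rw [LinearMap.smul_apply, W.cl_fund, corr_apply, one_mul, W.push_snd', mul_smul_comm,
        mul_one, map_smul, smul_smul, smul_eq_mul]
      rw [mul_comm q, ← mul_assoc, inv_mul_cancel₀ htop, one_mul]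
    rcases Nat.eq_or_lt_of_le hi with h1 | h1
    · subst h1
      refine ⟨LinearMap.id, KOp.cast (KOp.id S) (by simp), ?_⟩
      intro y _
      rw [Nat.sub_self, pow_zero, one_mul, LinearMap.id_apply]
    obtain ⟨T, hT1, hT2⟩ := hT i h0 h1
    set L := LinearMap.mulLeft W.K (W.cl S D) with hL
    have hLh : IsHom (W.gr S) 2 L := by
      simpa using rop_opAlg.hom (rop_mulLeft (W := W) hD)
    by_cases h2 : 2 ≤ i
    · obtain ⟨θ, hθ1, hθ2⟩ := ih (i - 2) (by omega) (by omega)
      have e0 : S.dim - (i - 2) = S.dim - i + 2 := by omega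
      rw [e0] at hθ1 hθ2
      set π : Module.End W.K (W.H S) := L ^ (S.dim - i + 1) * (θ * L) with hπ
      have hL1 : L ∈ KOp W S S 1 := by simpa using lef_pow_mem (W := W) hD 1
      have hπm : π ∈ KOp W S S 0 := by
        exact KOp.cast (KOp.comp (lef_pow_mem hD (S.dim - i + 1)) (KOp.comp hθ1 hL1))
          (by push_cast; ring)
      refine ⟨T * (1 - π) + L * (θ * L), ?_, ?_⟩
      · apply Submodule.add_mem
        · exact KOp.cast (KOp.comp hT1 (Submodule.sub_mem _ (KOp.id S) hπm)) (by ring)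
        · exact KOp.cast (KOp.comp hL1 (KOp.comp hθ1 hL1)) (by push_cast; ring)
      · intro y hy
        rcases prim_split hLh W_hbd hHL hi hy with h3 | ⟨_, b, hb, h3⟩
        · have hp : W.cl S D ^ (S.dim - i + 1) * y = 0 := by rwa [mulLeft_pow'] at h3
          have e1 : L (W.cl S D ^ (S.dim - i) * y) = 0 := by
            rw [hL, LinearMap.mulLeft_apply, ← mul_assoc, ← pow_succ', hp]
          rw [LinearMap.add_apply, Module.End.mul_apply, Module.End.mul_apply,
            Module.End.mul_apply, LinearMap.sub_apply, Module.End.one_apply, hπ,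
            Module.End.mul_apply, Module.End.mul_apply, e1, map_zero, map_zero, map_zero, sub_zero,
            add_zero, hT2 y hy hp]
        · have hp : W.cl S D ^ (S.dim - i + 1) * (y - L b) = 0 := by rwa [mulLeft_pow'] at h3
          have hLb : L b = W.cl S D * b := rfl
          have hbi : L b ∈ W.gr S i := by
            have := pow_L_mem hLh hb 1
            rwa [pow_one, show i - 2 + 2 * 1 = i by omega] at this
          have e1 : L (W.cl S D ^ (S.dim - i) * y) = W.cl S D ^ (S.dim - i + 2) * b := by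
            rw [hL, LinearMap.mulLeft_apply, ← mul_assoc, ← pow_succ']
            have : W.cl S D ^ (S.dim - i + 1) * y = W.cl S D ^ (S.dim - i + 1) * L b := by
              rw [← sub_eq_zero, ← mul_sub, hp]
            rw [this, hLb, ← mul_assoc, ← pow_succ]
          have e2 : θ (L (W.cl S D ^ (S.dim - i) * y)) = b := by
            rw [e1, hθ2 b hb]
          have e3 : π (W.cl S D ^ (S.dim - i) * y) = W.cl S D ^ (S.dim - i) * L b := by
            rw [hπ, Module.End.mul_apply, Module.End.mul_apply, e2, mulLeft_pow', hLb, ← mul_assoc,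
              ← pow_succ]
          rw [LinearMap.add_apply, Module.End.mul_apply, Module.End.mul_apply,
            Module.End.mul_apply, LinearMap.sub_apply, Module.End.one_apply, e3, e2, ← mul_sub,
            hT2 (y - L b) (Submodule.sub_mem _ hy hbi) hp, sub_add_cancel]
    · refine ⟨T, hT1, fun y hy => hT2 y hy ?_⟩
      rcases prim_split hLh W_hbd hHL hi hy with h3 | ⟨h3, _⟩
      · rwa [mulLeft_pow'] at h3
      · exact absurd h3 h2

/-- The case of one variety. -/
theorem lefschetzB_of_power {D : S.Cycles} {E : R.Cycles} {A : V.Cycles} {N : ℕ}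
    {f : Fin N → (V ⟶ S.prod R)} {c : ℚ} (hD : S.IsCyc 1 D) (hHL : HardLefschetz W S D)
    (h : IsPower W D E A f c) (hV : ∀ i, 0 < i → i < S.dim →
      ∃ d, d * Module.finrank W.K (W.H S) < N ∧ InvertsUpTo W V A i d) :
    LefschetzB W S D := by
  have hT : ∀ i, 0 < i → i < S.dim → ∃ T ∈ KOp W S S (-((S.dim - i : ℕ) : ℤ)), ∀ x ∈ W.gr S i,
      W.cl S D ^ (S.dim - i + 1) * x = 0 → T (W.cl S D ^ (S.dim - i) * x) = x := by
    intro i hi0 hi
    obtain ⟨d, hd, hd2⟩ := hV i hi0 hi
    exact h.exists_op hD hi0 hi hd2 hd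
  apply lefschetzB_of_inj hD hHL
  intro c hc
  obtain ⟨θ, hθ1, hθ2⟩ := exists_theta hD hHL hT (S.dim - c) (Nat.sub_le _ _)
  have e0 : S.dim - (S.dim - c) = c := by omega
  rw [e0] at hθ1 hθ2
  refine ⟨θ, hθ1, fun a ha h0 => ?_⟩
  obtain ⟨b, hb, hb'⟩ := (hHL (S.dim - c) (by omega)).2 a
    (by rw [show 2 * S.dim - (S.dim - c) = S.dim + c by omega]; exact ha)
  rw [e0, mulLeft_pow'] at hb'
  rw [← hb', hθ2 b hb] at h0
  rw [← hb', h0, mul_zero]

lemma invertsUpTo_zero {D : X.Cycles} (hD : X.IsCyc 1 D) (hHL : HardLefschetz W X D)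
    (hB : LefschetzB W X D) {i : ℕ} (hi : i ≤ X.dim) : InvertsUpTo W X D i 0 := by
  obtain ⟨γ, hγ, F, hF, hd⟩ := invertsProportion_of_B hD hHL hB i hi
  obtain ⟨h0, h1⟩ := invertsOn_iff.1 hF
  refine ⟨γ, hγ, F, h0, h1, ?_⟩
  rw [one_mul] at hd
  rw [add_zero]
  have h2 : W.betti X i ≤ Module.finrank W.K F := by exact_mod_cast hd
  exact h2

/-- **Errors of bounded rank.** -/
theorem lefschetzB_iff {Pol : ∀ X : 𝒱.Obj, X.Cycles → Prop} {n : ℕ} (hP : HasPowers W Pol n) :
    ConjB W Pol n ↔ ∃ d, ErrorsAtMost W Pol n d := by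
  constructor
  · intro h
    exact ⟨0, fun X D hX hD i _ hi => invertsUpTo_zero (hP.cyc X D hD) (hP.hard X D hD)
      (h X D hX hD) (by omega)⟩
  · rintro ⟨d, hd⟩ S D hS hSD
    obtain ⟨V, A, hA, R, E, f, c, hpow⟩ :=
      hP.power S D (d * Module.finrank W.K (W.H S) + 1) hS hSD
    apply lefschetzB_of_power (hP.cyc S D hSD) (hP.hard S D hSD) hpow
    intro i hi0 hi
    exact ⟨d, Nat.lt_succ_self _, hd V A (hpow.dim.trans hS) hA i hi0 (by omega)⟩

end Pool.Agent.H44T.BR
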