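import Pool.Agent.H44T.BR.MotDefs
import Pool.Agent.H44T.BR.Soc
import Pool.Agent.H44T.BR.Abs

/-!
# Tate classes and motivated classes up to errors of bounded dimension
-/

open CategoryTheory AlgebraicGeometry Finset

set_option linter.unusedSectionVars false

universe u v

namespace Pool.Agent.H44T.BR

open Pool.Agent.H914 Pool.Agent.H914.VarClass Pool.Agent.H914.VarClass.Obj
  Pool.Agent.H914.WeilCohomology Pool.Agent.V1144.Pw

variable {k : Type u} [Field k] {𝒱 : VarClass k} {ops : CycleOps 𝒱}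
  {W : WeilCohomology.{u, v} ops} {S V R X Y : 𝒱.Obj} {G : Type*} [Group G]
  {ρ : ∀ X : 𝒱.Obj, Representation W.K G (W.H X)} {χ : G →* W.Kˣ}

lemma tate_map (hG : IsGaloisAction W ρ χ) (f : X ⟶ Y) {r : ℕ} {y : W.H Y}
    (hy : y ∈ tateClasses W ρ χ Y r) : W.map f y ∈ tateClasses W ρ χ X r := by
  refine ⟨W.map_mem f hy.1, fun g => ?_⟩
  have h1 : W.map f (ρ Y g y) = ρ X g (W.map f y) := hG.natural f g y
  rw [← h1, hy.2 g, map_smul]

/-- The pair of the Tate classes and the classes in a family. -/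
lemma pair_tate (hG : IsGaloisAction W ρ χ) {Pol : ∀ X : 𝒱.Obj, X.Cycles → Prop} {n r : ℕ}
    (hP : HasPowers W Pol n) {E : ∀ X : 𝒱.Obj, Submodule W.K (W.H X)}
    (hE : IsClassFamily W ρ χ n r E) :
    IsFunctorialPair W Pol n (2 * r) (fun X => tateClasses W ρ χ X r) E where
  deg X _ _ hx := hx.1
  le X hX := (hE.between X hX).2
  pull f _ _ x hx := tate_map hG f hx
  push f hX hY x hx := hE.push f hX hY x hx
  power X D hX hD j hj _ := by
    left
    obtain rfl : r = j := by omega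
    exact (hE.between X hX).1 (pow_mem_alg (hP.cyc X D hD) r)

/-- **Bounded defects vanish.** -/
theorem tateClasses_iff (hG : IsGaloisAction W ρ χ) {Pol : ∀ X : 𝒱.Obj, X.Cycles → Prop}
    {n r : ℕ} (hP : HasPowers W Pol n) {E : ∀ X : 𝒱.Obj, Submodule W.K (W.H X)}
    (hE : IsClassFamily W ρ χ n r E) :
    TateClassesIn W ρ χ Pol n r E ↔ ∃ d, TateDefectAtMost W ρ χ Pol n r E d :=
  pair_iff hP (pair_tate hG hP hE)

/-- **A small defect on one power.** -/
theorem tateClasses_of_power (hG : IsGaloisAction W ρ χ) {Pol : ∀ X : 𝒱.Obj, X.Cycles → Prop}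
    {n r : ℕ} (hP : HasPowers W Pol n) {E : ∀ X : 𝒱.Obj, Submodule W.K (W.H X)}
    (hE : IsClassFamily W ρ χ n r E) : TateForPowers W ρ χ Pol n r E := by
  intro S V D A N d hS hSD hV hN hd
  exact pair_good (pair_tate hG hP hE) hS hSD (hP.cyc S D hSD) (hP.hard S D hSD) hV hd hN

end Pool.Agent.H44T.BR
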