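import Pool.Agent.H44T.BR.SocDefs

/-!
# Tate classes and motivated classes up to errors of bounded dimension: definitions
-/

open CategoryTheory AlgebraicGeometry

universe u v

namespace Pool.Agent.H44T.BR

open Pool.Agent.H914 Pool.Agent.H914.VarClass Pool.Agent.H914.VarClass.Obj
  Pool.Agent.H914.WeilCohomology

section Alg

variable {K G V V' : Type*} [Field K] [Group G] [AddCommGroup V] [Module K V]
  [AddCommGroup V'] [Module K V']

/-- The vectors of `U` on which the group acts by the `r`-th power of the character `χ`. -/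
def weightSpace (ρ : Representation K G V) (χ : G →* Kˣ) (r : ℕ) (U : Submodule K V) :
    Submodule K V where
  carrier := {x | x ∈ U ∧ ∀ g, ρ g x = ((χ g : K) ^ r) • x}
  zero_mem' := ⟨Submodule.zero_mem _, fun g => by rw [map_zero, smul_zero]⟩
  add_mem' ha hb := ⟨Submodule.add_mem _ ha.1 hb.1, fun g => by
    rw [map_add, ha.2 g, hb.2 g, smul_add]⟩
  smul_mem' c a ha := ⟨Submodule.smul_mem _ _ ha.1, fun g => by
    rw [map_smul, ha.2 g, smul_comm]⟩

/-- The linear map `f` maps `U` into `U'`. -/
def SendsInto (f : V →ₗ[K] V') (U : Submodule K V) (U' : Submodule K V') : Prop :=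
  ∀ x ∈ U, f x ∈ U'

/-- `B` contains `A` and is contained in `C`. -/
def LiesBetween (A B C : Submodule K V) : Prop := A ≤ B ∧ B ≤ C

end Alg

variable {k : Type u} [Field k] {𝒱 : VarClass k} {ops : CycleOps 𝒱}

/-- The Tate classes over the base field: the invariants of the group in `H^(2r)(X)(r)`. -/
def tateClasses (W : WeilCohomology.{u, v} ops) {G : Type*} [Group G]
    (ρ : ∀ X : 𝒱.Obj, Representation W.K G (W.H X)) (χ : G →* W.Kˣ) (X : 𝒱.Obj) (r : ℕ) :
    Submodule W.K (W.H X) :=
  weightSpace (ρ X) χ r (W.gr X (2 * r))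

/-- The subspaces `E X`, for `dim X = n`, contain the classes of the cycles of codimension `r`,
consist of Tate classes and are stable under push-forwards: for example the spans of the algebraic
classes, of the motivated classes, or of the absolute Hodge classes. -/
structure IsClassFamily (W : WeilCohomology.{u, v} ops) {G : Type*} [Group G]
    (ρ : ∀ X : 𝒱.Obj, Representation W.K G (W.H X)) (χ : G →* W.Kˣ) (n r : ℕ)
    (E : ∀ X : 𝒱.Obj, Submodule W.K (W.H X)) : Prop where
  between : ∀ X, X.dim = n → LiesBetween (spanCycles W X (r : ℤ)) (E X) (tateClasses W ρ χ X r)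
  push : ∀ {X Y : 𝒱.Obj} (f : X ⟶ Y), X.dim = n → Y.dim = n → SendsInto (W.push f) (E X) (E Y)

/-- For the members of dimension `n` all Tate classes of codimension `r` are in `E X`. -/
def TateClassesIn (W : WeilCohomology.{u, v} ops) {G : Type*} [Group G]
    (ρ : ∀ X : 𝒱.Obj, Representation W.K G (W.H X)) (χ : G →* W.Kˣ)
    (Pol : ∀ X : 𝒱.Obj, X.Cycles → Prop) (n r : ℕ) (E : ∀ X : 𝒱.Obj, Submodule W.K (W.H X)) :
    Prop :=
  ∀ X D, X.dim = n → Pol X D → tateClasses W ρ χ X r = E X

/-- For the members of dimension `n` the codimension of `E X` in the space of the Tate classes of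
codimension `r` is at most `d`. -/
def TateDefectAtMost (W : WeilCohomology.{u, v} ops) {G : Type*} [Group G]
    (ρ : ∀ X : 𝒱.Obj, Representation W.K G (W.H X)) (χ : G →* W.Kˣ)
    (Pol : ∀ X : 𝒱.Obj, X.Cycles → Prop) (n r : ℕ) (E : ∀ X : 𝒱.Obj, Submodule W.K (W.H X))
    (d : ℕ) : Prop :=
  ∀ X D, X.dim = n → Pol X D → CodimAtMost (E X) (tateClasses W ρ χ X r) d

/-- The Tate classes of codimension `r` of a member `S` of dimension `n` are in `E S` if, for some
complete intersection `V` in `S^N` of the dimension of `S`, the codimension of `E V` in the space of the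
Tate classes is less than `N / dim H(S)`. -/
def TateForPowers (W : WeilCohomology.{u, v} ops) {G : Type*} [Group G]
    (ρ : ∀ X : 𝒱.Obj, Representation W.K G (W.H X)) (χ : G →* W.Kˣ)
    (Pol : ∀ X : 𝒱.Obj, X.Cycles → Prop) (n r : ℕ) (E : ∀ X : 𝒱.Obj, Submodule W.K (W.H X)) :
    Prop :=
  ∀ (S V : 𝒱.Obj) (D : S.Cycles) (A : V.Cycles) (N d : ℕ), S.dim = n → Pol S D →
    IsPowerOf W D N A → d * totalBetti W S < N → CodimAtMost (E V) (tateClasses W ρ χ V r) d →
    tateClasses W ρ χ S r = E S

end Pool.Agent.H44T.BR
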