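import Pool.Agent.H44T.BR.Defs
import Pool.Agent.TH133.PW.EvDefs

/-!
# Kunneth projectors up to errors of bounded rank: definitions
-/

open CategoryTheory AlgebraicGeometry

universe u v

namespace Pool.Agent.H44T.BR

open Pool.Agent.H914 Pool.Agent.H914.VarClass Pool.Agent.H914.VarClass.Obj
  Pool.Agent.H914.WeilCohomology Pool.Agent.TH133.PW Pool.Agent.H447

section Alg

variable {K V : Type*} [Field K] [AddCommGroup V] [Module K V]

open Classical in
/-- `P` is the projector onto the sum of the `gr j`, `j ∈ J`, along the sum of the other `gr j`. -/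
def IsSetProj (gr : ℕ → Submodule K V) (J : Set ℕ) (P : Module.End K V) : Prop :=
  ∀ j, ∀ a ∈ gr j, P a = if j ∈ J then a else 0

/-- The projector onto the sum of the `gr j`, `j ∈ J`, is a linear combination of operators in
`S`. -/
def SetProjInSpan (gr : ℕ → Submodule K V) (J : Set ℕ) (S : Set (V →ₗ[K] V)) : Prop :=
  ∃ P ∈ Submodule.span K S, IsSetProj gr J P

/-- The rank of `φ - P` is at most `d`. -/
def DiffersByRank (φ P : Module.End K V) (d : ℕ) : Prop :=
  Module.finrank K (LinearMap.range (φ - P)) ≤ d

/-- Some linear combination of the operators in `S` differs from the projector onto the sum of the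
`gr j`, `j ∈ J`, by an operator of rank at most `d`. -/
def SetProjUpTo (gr : ℕ → Submodule K V) (J : Set ℕ) (S : Set (V →ₗ[K] V)) (d : ℕ) : Prop :=
  ∃ φ ∈ Submodule.span K S, ∃ P, IsSetProj gr J P ∧ DiffersByRank φ P d

/-- Some linear combination of the operators in `S` differs from the projector onto the sum of the
`gr j`, `j` even, by an operator of rank at most `d`. -/
def EvenProjUpTo (gr : ℕ → Submodule K V) (S : Set (V →ₗ[K] V)) (d : ℕ) : Prop :=
  ∃ φ ∈ Submodule.span K S, ∃ P, IsEvenProj gr P ∧ DiffersByRank φ P d

end Alg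

variable {k : Type u} [Field k] {𝒱 : VarClass k} {ops : CycleOps 𝒱}

/-- The sign conjecture for the members of dimension `n` of the class `Pol`. -/
def SignAll (W : WeilCohomology.{u, v} ops) (Pol : ∀ X : 𝒱.Obj, X.Cycles → Prop) (n : ℕ) : Prop :=
  ∀ X D, X.dim = n → Pol X D → SignStd W X

/-- For the members of dimension `n` the even projector is a combination of algebraic
correspondences, with coefficients in the coefficient field, up to an error of rank at most `d`. -/
def SignErrorsAtMost (W : WeilCohomology.{u, v} ops) (Pol : ∀ X : 𝒱.Obj, X.Cycles → Prop)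
    (n d : ℕ) : Prop :=
  ∀ X D, X.dim = n → Pol X D → EvenProjUpTo (W.gr X) (cycleOperators W X X.dim) d

/-- On some complete intersection `V` in `S^N` of the dimension of `S`, for some `N`, the even
projector is a combination of algebraic correspondences up to an error of rank less than
`N / dim H(S)`. -/
def HasGoodSignPower (W : WeilCohomology.{u, v} ops) (S : 𝒱.Obj) (D : S.Cycles) : Prop :=
  ∃ (N : ℕ) (V : 𝒱.Obj) (A : V.Cycles) (d : ℕ), IsPowerOf W D N A ∧
    d * totalBetti W S < N ∧ EvenProjUpTo (W.gr V) (cycleOperators W V V.dim) d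

/-- For the members of dimension `n` the projector onto the degrees in `J` is a combination of
algebraic correspondences, with coefficients in the coefficient field. -/
def ProjAll (W : WeilCohomology.{u, v} ops) (Pol : ∀ X : 𝒱.Obj, X.Cycles → Prop) (n : ℕ)
    (J : Set ℕ) : Prop :=
  ∀ X D, X.dim = n → Pol X D → SetProjInSpan (W.gr X) J (cycleOperators W X X.dim)

/-- The same up to errors of rank at most `d`. -/
def ProjErrorsAtMost (W : WeilCohomology.{u, v} ops) (Pol : ∀ X : 𝒱.Obj, X.Cycles → Prop)
    (n : ℕ) (J : Set ℕ) (d : ℕ) : Prop :=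
  ∀ X D, X.dim = n → Pol X D → SetProjUpTo (W.gr X) J (cycleOperators W X X.dim) d

/-- On some complete intersection `V` in `S^N` of the dimension of `S`, for some `N`, the projector
onto the degrees in `J` is a combination of algebraic correspondences up to an error of rank less
than `N / dim H(S)`. -/
def HasGoodProjPower (W : WeilCohomology.{u, v} ops) (S : 𝒱.Obj) (D : S.Cycles) (J : Set ℕ) :
    Prop :=
  ∃ (N : ℕ) (V : 𝒱.Obj) (A : V.Cycles) (d : ℕ), IsPowerOf W D N A ∧
    d * totalBetti W S < N ∧ SetProjUpTo (W.gr V) J (cycleOperators W V V.dim) d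

end Pool.Agent.H44T.BR
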