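import Pool.Agent.H44T.BR.Pair
import Pool.Agent.H44T.BR.OpDefs
import Pool.Agent.TH133.PW.Ev
import Pool.Agent.TH133.PW.Kun

/-!
# Kunneth projectors up to errors of bounded rank
-/

open CategoryTheory AlgebraicGeometry Finset

set_option linter.unusedSectionVars false

universe u v

namespace Pool.Agent.H44T.BR

open Pool.Agent.H914 Pool.Agent.H914.VarClass Pool.Agent.H914.VarClass.Obj
  Pool.Agent.H914.WeilCohomology Pool.Agent.V1144.Pw Pool.Agent.TH133.PW Pool.Agent.H447

variable {k : Type u} [Field k] {𝒱 : VarClass k} {ops : CycleOps 𝒱}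
  {W : WeilCohomology.{u, v} ops} {S V R X Y : 𝒱.Obj}

/-- The projector onto the line spanned by `ξ ^ s`. -/
lemma exists_powProj {D : S.Cycles} (hD : S.IsCyc 1 D) {s : ℕ} (hs : s ≤ S.dim) :
    ∃ ε ∈ KOp W S S 0, ∀ x, ε x = ((W.tr S (W.cl S D ^ S.dim))⁻¹ *
      W.tr S (W.cl S D ^ (S.dim - s) * x)) • W.cl S D ^ s := by
  refine ⟨(W.tr S (W.cl S D ^ S.dim))⁻¹ • (LinearMap.mulLeft W.K (W.cl S D) ^ s *
    (W.corr (W.cl _ (S.prod S).V.fundCycle) * LinearMap.mulLeft W.K (W.cl S D) ^ (S.dim - s))),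
    ?_, ?_⟩
  · apply Submodule.smul_mem
    exact KOp.cast (KOp.comp (lef_pow_mem hD s) (KOp.comp
      (KOp.gen (p := 0) (d := -(S.dim : ℤ)) (by ring) (S.prod S).V.fundCycle_mem)
      (lef_pow_mem hD (S.dim - s)))) (by push_cast [Nat.cast_sub hs]; ring)
  · intro x
    rw [LinearMap.smul_apply, Module.End.mul_apply, Module.End.mul_apply, mulLeft_pow',
      mulLeft_pow', W.cl_fund, corr_apply, one_mul, W.push_snd', mul_smul_comm, mul_one, smul_smul]

section power

variable {D : S.Cycles} {E : R.Cycles} {A : V.Cycles} {N : ℕ} {f : Fin N → (V ⟶ S.prod R)} {c : ℚ}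
  (h : IsPower W D E A f c) (hD : S.IsCyc 1 D)
include h hD

/-- **An operator which commutes with the push-forwards and is algebraic up to a small error on the
power `V` is algebraic on `S`.** -/
theorem IsPower.op_principle (hHL : HardLefschetz W S D) {PV : Module.End W.K (W.H V)}
    {PS : Module.End W.K (W.H S)}
    (hcomm : ∀ l v, W.push (f l ≫ fst S R) (PV v) = PS (W.push (f l ≫ fst S R) v))
    (hpow : ∀ s, ∃ a : W.K, PS (W.cl S D ^ s) = a • W.cl S D ^ s)
    {γ : Module.End W.K (W.H V)} (hγ : γ ∈ KOp W V V 0) {d : ℕ}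
    (hd : Module.finrank W.K (LinearMap.range (γ - PV)) ≤ d)
    (hN : d * Module.finrank W.K (W.H S) < N) : PS ∈ KOp W S S 0 := by
  by_cases htr : W.tr S (W.cl S D ^ S.dim) = 0
  · have h0 : PS = 0 := LinearMap.ext fun x => tr_pow_ne_zero hD hHL htr _
    rw [h0]; exact Submodule.zero_mem _
  obtain ⟨b, j, hj, hrel⟩ := exists_relation (LinearMap.range (γ - PV))
    (fun l => W.push (f l ≫ fst S R)) (lt_of_le_of_lt (Nat.mul_le_mul_right _ hd) hN)
  set κ := (c : W.K) * W.tr R (W.cl R E ^ R.dim) with hκ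
  have hκ0 : κ ≠ 0 := mul_ne_zero (by exact_mod_cast h.ne_zero) h.pair.trE
  set T : Module.End W.K (W.H S) := (b j * κ)⁻¹ • ∑ l, b l • (W.push (f l ≫ fst S R) ∘ₗ γ ∘ₗ
    (W.map (f j ≫ fst S R)).toLinearMap) with hT
  have hTm : T ∈ KOp W S S 0 := by
    apply Submodule.smul_mem
    apply Submodule.sum_mem
    intro l _
    apply Submodule.smul_mem
    exact KOp.cast (KOp.comp (push_mem' _ h.dim) (KOp.comp hγ (map_mem' _))) (by ring)
  have hTx : ∀ x, (∀ s, W.tr S (W.cl S D ^ s * x) = 0) → T x = PS x := by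
    intro x hx
    set y := W.map (f j ≫ fst S R) x with hy
    have hsum : ∑ l, b l • W.push (f l ≫ fst S R) y = (b j * κ) • x := by
      rw [Finset.sum_eq_single j]
      · rw [hy, h.push_map hD j x, smul_smul]
      · intro l _ hl
        rw [hy, h.push_map_ne' hD (Ne.symm hl) hx, smul_zero]
      · intro h0
        exact absurd (Finset.mem_univ _) h0
    have e1 : ∀ l, (W.push (f l ≫ fst S R) ∘ₗ γ ∘ₗ (W.map (f j ≫ fst S R)).toLinearMap) x =
        PS (W.push (f l ≫ fst S R) y) + W.push (f l ≫ fst S R) ((γ - PV) y) := by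
      intro l
      rw [← hcomm l y, ← map_add, LinearMap.sub_apply, add_sub_cancel]
      rfl
    rw [hT, LinearMap.smul_apply, LinearMap.sum_apply]
    simp only [LinearMap.smul_apply, e1, smul_add]
    rw [Finset.sum_add_distrib, hrel ((γ - PV) y) ⟨y, rfl⟩, add_zero]
    have e3 : ∑ l, b l • PS (W.push (f l ≫ fst S R) y) =
        PS (∑ l, b l • W.push (f l ≫ fst S R) y) := by
      rw [map_sum]
      apply Finset.sum_congr rfl
      intro l _
      rw [map_smul]
    rw [e3, hsum, ← map_smul, smul_smul, inv_mul_cancel₀ (mul_ne_zero hj hκ0), one_smul]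
  choose! ε hε1 hε2 using fun (s : ℕ) (hs : s ≤ S.dim) => exists_powProj (W := W) hD hs
  choose a ha using hpow
  have hfin : PS = T * (1 - ∑ s ∈ range (S.dim + 1), ε s) + ∑ s ∈ range (S.dim + 1), a s • ε s := by
    apply LinearMap.ext
    intro x
    set x' := x - ∑ s ∈ range (S.dim + 1), ε s x with hx'
    have horth : ∀ t, W.tr S (W.cl S D ^ t * x') = 0 := by
      intro t
      by_cases ht : t ≤ S.dim
      · rw [hx', mul_sub, map_sub, Finset.mul_sum, map_sum, Finset.sum_eq_single (S.dim - t)]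
        · rw [hε2 _ (Nat.sub_le _ _), mul_smul_comm, map_smul, ← pow_add,
            Nat.add_sub_cancel' ht, Nat.sub_sub_self ht, smul_eq_mul]
          field_simp
          ring
        · intro s hs hst
          have hs' : s ≤ S.dim := Nat.lt_succ_iff.1 (Finset.mem_range.1 hs)
          rw [hε2 s hs', mul_smul_comm, map_smul, ← pow_add,
            W.tr_eq_zero (pow_mem_gr (W.cl_mem hD) (t + s)) (by omega), smul_zero]
        · intro h0
          exact absurd (Finset.mem_range.2 (by omega)) h0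
      · rw [pow_eq_zero_of_lt (W.cl_mem hD) (by omega), zero_mul, map_zero]
    have e1 : x = x' + ∑ s ∈ range (S.dim + 1), ε s x := by rw [hx', sub_add_cancel]
    have e2 : PS x = PS x' + ∑ s ∈ range (S.dim + 1), a s • ε s x := by
      conv_lhs => rw [e1]
      rw [map_add, map_sum]
      congr 1
      apply Finset.sum_congr rfl
      intro s hs
      have hs' : s ≤ S.dim := Nat.lt_succ_iff.1 (Finset.mem_range.1 hs)
      rw [hε2 s hs', map_smul, ha s, smul_comm]
    rw [e2, LinearMap.add_apply, Module.End.mul_apply, LinearMap.sub_apply, Module.End.one_apply,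
      LinearMap.sum_apply, LinearMap.sum_apply, ← hx', hTx x' horth]
    simp only [LinearMap.smul_apply]
  rw [hfin]
  apply Submodule.add_mem
  · refine KOp.cast (KOp.comp hTm (Submodule.sub_mem _ (KOp.id S) (Submodule.sum_mem _ ?_)))
      (by ring)
    intro s hs
    exact hε1 s (Nat.lt_succ_iff.1 (Finset.mem_range.1 hs))
  · apply Submodule.sum_mem
    intro s hs
    exact Submodule.smul_mem _ _ (hε1 s (Nat.lt_succ_iff.1 (Finset.mem_range.1 hs)))

end power

lemma push_gr'' (f : X ⟶ Y) (hXY : X.dim = Y.dim) {i : ℕ} {x : W.H X} (hx : x ∈ W.gr X i) :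
    W.push f x ∈ W.gr Y i := by
  have h1 := W.push_mem f hx
  rwa [show (i : ℤ) + 2 * ((Y.dim : ℤ) - X.dim) = i by omega, grZ_natCast] at h1

lemma isSetProj_push {J : Set ℕ} {PX : Module.End W.K (W.H X)} {PY : Module.End W.K (W.H Y)}
    (hX : IsSetProj (W.gr X) J PX) (hY : IsSetProj (W.gr Y) J PY) (f : X ⟶ Y)
    (hXY : X.dim = Y.dim) (v : W.H X) : W.push f (PX v) = PY (W.push f v) := by
  classical
  have h1 : W.push f ∘ₗ PX = PY ∘ₗ W.push f := by
    apply gr_ext (W.isInternal X)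
    intro i a ha
    rw [LinearMap.comp_apply, LinearMap.comp_apply, hX i a ha, hY i _ (push_gr'' f hXY ha)]
    by_cases hi : i ∈ J
    · rw [if_pos hi, if_pos hi]
    · rw [if_neg hi, if_neg hi, map_zero]
  exact LinearMap.congr_fun h1 v

/-- The projector onto the degrees in `J`. -/
noncomputable def setProj (W : WeilCohomology.{u, v} ops) (X : 𝒱.Obj) (J : Set ℕ) :
    Module.End W.K (W.H X) := by
  classical
  exact ∑ i ∈ range (2 * X.dim + 1), if i ∈ J then proj (W.isInternal X) i else 0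

lemma isSetProj_setProj (J : Set ℕ) : IsSetProj (W.gr X) J (setProj W X J) := by
  classical
  intro j a ha
  rw [setProj, LinearMap.sum_apply]
  by_cases hj2 : j ≤ 2 * X.dim
  · rw [Finset.sum_eq_single j]
    · by_cases hj : j ∈ J
      · rw [if_pos hj, if_pos hj, proj_same _ ha]
      · rw [if_neg hj, if_neg hj, LinearMap.zero_apply]
    · intro i _ hij
      by_cases hi : i ∈ J
      · rw [if_pos hi, proj_ne _ ha (Ne.symm hij)]
      · rw [if_neg hi, LinearMap.zero_apply]
    · intro h0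
      exact absurd (Finset.mem_range.2 (by omega)) h0
  · rw [W.gr_eq_bot X j (by omega)] at ha
    rw [(Submodule.mem_bot _).1 ha]
    simp

lemma isSetProj_unique {J : Set ℕ} {P Q : Module.End W.K (W.H X)}
    (hP : IsSetProj (W.gr X) J P) (hQ : IsSetProj (W.gr X) J Q) : P = Q :=
  gr_ext (W.isInternal X) fun i a ha => by rw [hP i a ha, hQ i a ha]

/-- **A small error on one power.** -/
theorem proj_of_power {D : S.Cycles} (hD : S.IsCyc 1 D) (hHL : HardLefschetz W S D) {J : Set ℕ}
    (h : HasGoodProjPower W S D J) :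
    SetProjInSpan (W.gr S) J (cycleOperators W S S.dim) := by
  classical
  obtain ⟨N, V, A, d, ⟨R, E, f, c, hpow⟩, hN, φ, hφ, PV, hPV, hd⟩ := h
  rw [span_cycleOperators0] at hφ
  refine ⟨setProj W S J, ?_, isSetProj_setProj J⟩
  rw [span_cycleOperators0]
  refine hpow.op_principle hD hHL
    (fun l v => isSetProj_push hPV (isSetProj_setProj J) _ hpow.dim v) ?_ hφ hd hN
  intro s
  refine ⟨if 2 * s ∈ J then 1 else 0, ?_⟩
  rw [isSetProj_setProj J (2 * s) _ (pow_mem_gr (W.cl_mem hD) s)]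
  by_cases hs : 2 * s ∈ J
  · rw [if_pos hs, if_pos hs, one_smul]
  · rw [if_neg hs, if_neg hs, zero_smul]

lemma upTo_of_span {J : Set ℕ} (h : SetProjInSpan (W.gr X) J (cycleOperators W X X.dim)) :
    SetProjUpTo (W.gr X) J (cycleOperators W X X.dim) 0 := by
  obtain ⟨P, hP, hP'⟩ := h
  refine ⟨P, hP, P, hP', ?_⟩
  rw [DiffersByRank, sub_self, LinearMap.range_zero, finrank_bot]

/-- **Projectors up to errors of bounded rank.** -/
theorem proj_iff {Pol : ∀ X : 𝒱.Obj, X.Cycles → Prop} {n : ℕ} (hP : HasPowers W Pol n)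
    (J : Set ℕ) : ProjAll W Pol n J ↔ ∃ d, ProjErrorsAtMost W Pol n J d := by
  constructor
  · intro h
    exact ⟨0, fun X D hX hD => upTo_of_span (h X D hX hD)⟩
  · rintro ⟨d, hd⟩ S D hS hSD
    obtain ⟨V, A, hA, hV⟩ := hP.power S D (d * Module.finrank W.K (W.H S) + 1) hS hSD
    have hVd : V.dim = n := by
      obtain ⟨R, E, f, c, hpow⟩ := hV
      exact hpow.dim.trans hS
    exact proj_of_power (hP.cyc S D hSD) (hP.hard S D hSD)
      ⟨_, V, A, d, hV, Nat.lt_succ_self _, hd V A hVd hA⟩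

/-! ### The sign conjecture -/

lemma isEvenProj_iff_set {P : Module.End W.K (W.H X)} :
    IsEvenProj (W.gr X) P ↔ IsSetProj (W.gr X) {j | Even j} P := by
  classical
  constructor
  · intro h j a ha
    rw [h j a ha]
    by_cases hj : Even j
    · rw [if_pos hj, if_pos (show j ∈ {j | Even j} from hj)]
    · rw [if_neg hj, if_neg (show ¬ j ∈ {j | Even j} from hj)]
  · intro h j a ha
    rw [h j a ha]
    by_cases hj : Even j
    · rw [if_pos hj, if_pos (show j ∈ {j | Even j} from hj)]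
    · rw [if_neg hj, if_neg (show ¬ j ∈ {j | Even j} from hj)]

lemma evenUpTo_iff {S' : Set (W.H X →ₗ[W.K] W.H X)} {d : ℕ} :
    EvenProjUpTo (W.gr X) S' d ↔ SetProjUpTo (W.gr X) {j | Even j} S' d := by
  constructor
  · rintro ⟨φ, hφ, P, hP, hd⟩
    exact ⟨φ, hφ, P, isEvenProj_iff_set.1 hP, hd⟩
  · rintro ⟨φ, hφ, P, hP, hd⟩
    exact ⟨φ, hφ, P, isEvenProj_iff_set.2 hP, hd⟩

lemma sign_iff_set : SignStd W X ↔
    SetProjInSpan (W.gr X) {j | Even j} (cycleOperators W X X.dim) := by
  constructor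
  · rintro ⟨z, hz, hz'⟩
    exact ⟨_, Submodule.subset_span ⟨z, hz, rfl⟩, isEvenProj_iff_set.1 hz'⟩
  · rintro ⟨P, hP, hP'⟩
    exact signStd_of_span ⟨P, hP, isEvenProj_iff_set.2 hP'⟩

/-- **The sign conjecture up to errors of bounded rank.** -/
theorem sign_iff {Pol : ∀ X : 𝒱.Obj, X.Cycles → Prop} {n : ℕ} (hP : HasPowers W Pol n) :
    SignAll W Pol n ↔ ∃ d, SignErrorsAtMost W Pol n d := by
  have h1 := proj_iff hP {j | Even j}
  constructor
  · intro h
    obtain ⟨d, hd⟩ := h1.1 fun X D hX hD => sign_iff_set.1 (h X D hX hD)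
    exact ⟨d, fun X D hX hD => evenUpTo_iff.2 (hd X D hX hD)⟩
  · rintro ⟨d, hd⟩ X D hX hD
    exact sign_iff_set.2 (h1.2 ⟨d, fun X D hX hD => evenUpTo_iff.1 (hd X D hX hD)⟩ X D hX hD)

/-- **The sign conjecture from a small error on one power.** -/
theorem sign_of_power {D : S.Cycles} (hD : S.IsCyc 1 D) (hHL : HardLefschetz W S D)
    (h : HasGoodSignPower W S D) : SignStd W S := by
  obtain ⟨N, V, A, d, hV, hN, hd⟩ := h
  exact sign_iff_set.2 (proj_of_power hD hHL ⟨N, V, A, d, hV, hN, evenUpTo_iff.1 hd⟩)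

end Pool.Agent.H44T.BR
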