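import Pool.Agent.H44T.BR.Main

/-!
# Bounded defects for functorial subspaces of the cohomology
-/

open CategoryTheory AlgebraicGeometry Finset

set_option linter.unusedSectionVars false

universe u v

namespace Pool.Agent.H44T.BR

open Pool.Agent.H914 Pool.Agent.H914.VarClass Pool.Agent.H914.VarClass.Obj
  Pool.Agent.H914.WeilCohomology Pool.Agent.V1144.Pw

variable {k : Type u} [Field k] {𝒱 : VarClass k} {ops : CycleOps 𝒱}
  {W : WeilCohomology.{u, v} ops} {S V R X Y : 𝒱.Obj}

/-- The family of subspaces `T X` of `H^i(X)`, `dim X = n`, is stable under pull-backs, the smaller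
family `E X` is stable under push-forwards, and, if `i = 2 j`, the `j`-th powers of the classes of the
polarizations are in `E X`, or else they are orthogonal to `T X` after multiplication with the
`(n - 2 j)`-th power. -/
structure IsFunctorialPair (W : WeilCohomology.{u, v} ops) (Pol : ∀ X : 𝒱.Obj, X.Cycles → Prop)
    (n i : ℕ) (T E : ∀ X : 𝒱.Obj, Submodule W.K (W.H X)) : Prop where
  deg : ∀ X, X.dim = n → T X ≤ W.gr X i
  le : ∀ X, X.dim = n → E X ≤ T X
  pull : ∀ {X Y : 𝒱.Obj} (f : X ⟶ Y), X.dim = n → Y.dim = n → ∀ x ∈ T Y, W.map f x ∈ T X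
  push : ∀ {X Y : 𝒱.Obj} (f : X ⟶ Y), X.dim = n → Y.dim = n → ∀ x ∈ E X, W.push f x ∈ E Y
  power : ∀ X D, X.dim = n → Pol X D → ∀ j, i = 2 * j → j ≤ n →
    W.cl X D ^ j ∈ E X ∨ ∀ x ∈ T X, W.tr X (W.cl X D ^ (n - j) * x) = 0

section power

variable {D : S.Cycles} {E : R.Cycles} {A : V.Cycles} {N : ℕ} {f : Fin N → (V ⟶ S.prod R)} {c : ℚ}
  (h : IsPower W D E A f c) (hD : S.IsCyc 1 D)
include h hD

/-- Different projections are orthogonal on classes which are orthogonal to the powers of `ξ`. -/
lemma IsPower.push_map_ne' {l m : Fin N} (hlm : l ≠ m) {x : W.H S}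
    (hx : ∀ s, W.tr S (W.cl S D ^ s * x) = 0) :
    W.push (f m ≫ fst S R) (W.map (f l ≫ fst S R) x) = 0 := by
  obtain ⟨q, hq⟩ := h.factor l m hlm
  apply W.nondeg
  intro y
  rw [W.tr_push, hq]
  have e1 : W.map (f l ≫ fst S R) x * W.map (f l ≫ snd S R ≫ q) y =
      W.map (f l) (W.map (fst S R) x * W.map (snd S R) (W.map q y)) := by
    rw [map_mul (W.map (f l)), W.map_comp, W.map_comp, W.map_comp]
  rw [e1, h.tr_map hD l, tr_pow (W.cl_mem hD) (W.cl_mem h.pair.cycE), Finset.sum_eq_zero, mul_zero]
  intro s _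
  rw [hx s, zero_mul, mul_zero]

/-- The principle of bounded defects. -/
theorem IsPower.principle {TV EV : Submodule W.K (W.H V)} {TS ES : Submodule W.K (W.H S)}
    (hpull : ∀ l, ∀ x ∈ TS, W.map (f l ≫ fst S R) x ∈ TV)
    (hpush : ∀ l, ∀ v ∈ EV, W.push (f l ≫ fst S R) v ∈ ES) (hle : EV ≤ TV) {d : ℕ}
    (hd : Module.finrank W.K TV ≤ Module.finrank W.K EV + d)
    (hN : d * Module.finrank W.K (W.H S) < N) {x : W.H S} (hx : x ∈ TS)
    (horth : ∀ s, W.tr S (W.cl S D ^ s * x) = 0) : x ∈ ES := by
  obtain ⟨M', hM'⟩ := Submodule.exists_isCompl (EV.comap TV.subtype)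
  set M := M'.map TV.subtype with hM
  have hMd : Module.finrank W.K M ≤ d := by
    have h1 := Submodule.finrank_add_eq_of_isCompl hM'
    have h2 : Module.finrank W.K (EV.comap TV.subtype) = Module.finrank W.K EV := by
      have h3 : (EV.comap TV.subtype).map TV.subtype = EV := by
        rw [Submodule.map_comap_subtype, inf_eq_right.2 hle]
      have h5 := LinearEquiv.finrank_eq (Submodule.equivMapOfInjective TV.subtype
        TV.injective_subtype (EV.comap TV.subtype))
      rw [h5, h3]
    have h4 : Module.finrank W.K M ≤ Module.finrank W.K M' := Submodule.finrank_map_le _ _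
    omega
  obtain ⟨b, j, hj, hrel⟩ := exists_relation M (fun l => W.push (f l ≫ fst S R))
    (lt_of_le_of_lt (Nat.mul_le_mul_right _ hMd) hN)
  set κ := (c : W.K) * W.tr R (W.cl R E ^ R.dim) with hκ
  have hκ0 : κ ≠ 0 := mul_ne_zero (by exact_mod_cast h.ne_zero) h.pair.trE
  set y := W.map (f j ≫ fst S R) x with hy
  have hyT : y ∈ TV := hpull j x hx
  have hsum : ∑ l, b l • W.push (f l ≫ fst S R) y = (b j * κ) • x := by
    rw [Finset.sum_eq_single j]
    · rw [hy, h.push_map hD j x, smul_smul]
    · intro l _ hl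
      rw [hy, h.push_map_ne' hD (Ne.symm hl) horth, smul_zero]
    · intro h0
      exact absurd (Finset.mem_univ _) h0
  have hmem : (b j * κ) • x ∈ ES := by
    rw [← hsum]
    have htop : (⟨y, hyT⟩ : TV) ∈ EV.comap TV.subtype ⊔ M' := by
      rw [hM'.sup_eq_top]; trivial
    obtain ⟨e, he, m', hm', hem⟩ := Submodule.mem_sup.1 htop
    have hy2 : y = (e : W.H V) + (m' : W.H V) := by
      have := congrArg Subtype.val hem
      simpa using this.symm
    have e1 : ∑ l, b l • W.push (f l ≫ fst S R) y =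
        ∑ l, b l • W.push (f l ≫ fst S R) (e : W.H V) +
          ∑ l, b l • W.push (f l ≫ fst S R) (m' : W.H V) := by
      rw [← Finset.sum_add_distrib]
      apply Finset.sum_congr rfl
      intro l _
      rw [hy2, map_add, smul_add]
    rw [e1, hrel (m' : W.H V) ⟨m', hm', rfl⟩, add_zero]
    exact Submodule.sum_mem _ fun l _ => Submodule.smul_mem _ _ (hpush l _ he)
  have h5 := Submodule.smul_mem ES (b j * κ)⁻¹ hmem
  rwa [smul_smul, inv_mul_cancel₀ (mul_ne_zero hj hκ0), one_smul] at h5

end power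

lemma tr_pow_ne_zero {D : X.Cycles} (hD : X.IsCyc 1 D) (hHL : HardLefschetz W X D)
    (htr : W.tr X (W.cl X D ^ X.dim) = 0) (z : W.H X) : z = 0 := by
  have h2 : W.cl X D ^ X.dim = 0 := by
    apply W.nondeg
    intro b
    refine gr_induction (W.isInternal X) (p := fun b => W.tr X (W.cl X D ^ X.dim * b) = 0)
      ?_ ?_ b
    · intro l b hb
      by_cases hl : l = 0
      · subst hl
        rw [W.gr_zero] at hb
        obtain ⟨q, rfl⟩ := Submodule.mem_span_singleton.1 hb
        rw [mul_smul_comm, mul_one, map_smul, htr, smul_zero]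
      · apply W.tr_eq_zero (W.mul_mem (pow_mem_gr (W.cl_mem hD) X.dim) hb)
        omega
    · intro b b' hb hb'
      rw [mul_add, map_add, hb, hb', add_zero]
  have h3 := (hHL 0 (Nat.zero_le _)).1 1 (W.one_mem X) (by
    rw [mulLeft_pow', Nat.sub_zero, h2, zero_mul])
  rw [← one_mul z, h3, zero_mul]

/-- **Bounded defects of functorial subspaces vanish.** -/
theorem pair_iff {Pol : ∀ X : 𝒱.Obj, X.Cycles → Prop} {n i : ℕ} (hP : HasPowers W Pol n)
    {T E : ∀ X : 𝒱.Obj, Submodule W.K (W.H X)} (hTE : IsFunctorialPair W Pol n i T E) :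
    (∀ X D, X.dim = n → Pol X D → T X = E X) ↔
      ∃ d, ∀ X D, X.dim = n → Pol X D →
        Module.finrank W.K (T X) ≤ Module.finrank W.K (E X) + d := by
  constructor
  · intro h
    exact ⟨0, fun X D hX hD => by rw [h X D hX hD, add_zero]⟩
  · rintro ⟨d, hd⟩ S D hS hSD
    refine le_antisymm ?_ (hTE.le S hS)
    have hD := hP.cyc S D hSD
    have hHL := hP.hard S D hSD
    obtain ⟨V, A, hA, R, F, f, c, h⟩ :=
      hP.power S D (d * Module.finrank W.K (W.H S) + 1) hS hSD
    have hV : V.dim = n := h.dim.trans hS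
    have key : ∀ x ∈ T S, (∀ s, W.tr S (W.cl S D ^ s * x) = 0) → x ∈ E S := by
      intro x hx horth
      exact h.principle hD (fun l y hy => hTE.pull _ hV hS y hy)
        (fun l v hv => hTE.push _ hV hS v hv) (hTE.le V hV) (hd V A hV hA) (Nat.lt_succ_self _)
        hx horth
    intro x hx
    have hxi := hTE.deg S hS hx
    by_cases hex : ∃ j, i = 2 * j ∧ j ≤ n
    · obtain ⟨j, hj, hjn⟩ := hex
      have hoff : ∀ s, s ≠ n - j → ∀ z ∈ W.gr S i, W.tr S (W.cl S D ^ s * z) = 0 := by
        intro s hs z hz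
        apply W.tr_eq_zero (W.mul_mem (pow_mem_gr (W.cl_mem hD) s) hz)
        omega
      rcases hTE.power S D hS hSD j hj hjn with hp | hp
      · by_cases htr : W.tr S (W.cl S D ^ S.dim) = 0
        · rw [tr_pow_ne_zero hD hHL htr x]
          exact Submodule.zero_mem _
        set q := W.tr S (W.cl S D ^ (n - j) * x) / W.tr S (W.cl S D ^ S.dim) with hq
        have hpT : W.cl S D ^ j ∈ T S := hTE.le S hS hp
        have h1 : x - q • W.cl S D ^ j ∈ E S := by
          apply key _ (Submodule.sub_mem _ hx (Submodule.smul_mem _ _ hpT))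
          intro s
          by_cases hs : s = n - j
          · subst hs
            rw [mul_sub, map_sub, mul_smul_comm, map_smul, ← pow_add,
              show n - j + j = S.dim by omega, hq, smul_eq_mul, div_mul_cancel₀ _ htr, sub_self]
          · exact hoff s hs _ (Submodule.sub_mem _ hxi (Submodule.smul_mem _ _
              (hTE.deg S hS hpT)))
        have h2 := Submodule.add_mem _ h1 (Submodule.smul_mem _ q hp)
        rwa [sub_add_cancel] at h2
      · apply key x hx
        intro s
        by_cases hs : s = n - j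
        · subst hs; exact hp x hx
        · exact hoff s hs x hxi
    · apply key x hx
      intro s
      apply W.tr_eq_zero (W.mul_mem (pow_mem_gr (W.cl_mem hD) s) hxi)
      intro h0
      exact hex ⟨n - s, by omega, by omega⟩

end Pool.Agent.H44T.BR
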