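import Pool.Agent.H44T.BR.PoleDefs
import Pool.Agent.H44T.BR.Frob
import Pool.Agent.H44T.BR.Abs

/-!
# Orders of poles and Jordan blocks up to bounded errors
-/

open CategoryTheory AlgebraicGeometry Finset

set_option linter.unusedSectionVars false

universe u v

namespace Pool.Agent.H44T.BR

open Pool.Agent.H914 Pool.Agent.H914.VarClass Pool.Agent.H914.VarClass.Obj
  Pool.Agent.H914.WeilCohomology Pool.Agent.V1144.Pw

variable {k : Type u} [Field k] {𝒱 : VarClass k} {ops : CycleOps 𝒱}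
  {W : WeilCohomology.{u, v} ops} {S V R X Y : 𝒱.Obj} {Fr : ∀ X : 𝒱.Obj, X ⟶ X} {q : ℕ}

section frob

variable (hF : IsFrobenius W q Fr)
include hF

lemma alg_le_pole (r : ℕ) : spanCycles W X (r : ℤ) ≤ poleSpace W q Fr X r := by
  refine Submodule.span_le.2 ?_
  rintro _ ⟨p, hp, z, hz, rfl⟩
  obtain rfl : p = r := by exact_mod_cast hp
  refine ⟨?_, W.cl_mem hz⟩
  have h1 : frob W Fr X (W.cl X z) = ((q : W.K) ^ p) • W.cl X z := hF.cyc X p z hz
  refine (Module.End.mem_maxGenEigenspace _ _ _).2 ⟨1, ?_⟩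
  rw [pow_one, LinearMap.sub_apply, LinearMap.smul_apply, Module.End.one_apply, h1, sub_self]

/-- The pair of the generalised eigenspace for `q ^ r` and the algebraic classes. -/
lemma pair_pole {Pol : ∀ X : 𝒱.Obj, X.Cycles → Prop} {n : ℕ} (hP : HasPowers W Pol n) (r : ℕ) :
    IsFunctorialPair W Pol n (2 * r) (fun X => poleSpace W q Fr X r)
      (fun X => spanCycles W X (r : ℤ)) where
  deg := (pair_eig hF hP (2 * r) ((q : W.K) ^ r)).deg
  le X _ := alg_le_pole hF r
  pull := (pair_eig hF hP (2 * r) ((q : W.K) ^ r)).pull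
  push {X Y} f hX hY x hx := push_alg f (hX.trans hY.symm) hx
  power X D _ hD j hj _ := by
    left
    obtain rfl : r = j := by omega
    exact pow_mem_alg (hP.cyc X D hD) r

/-- **The order of the pole and the rank of the algebraic classes.** -/
theorem pole_iff {Pol : ∀ X : 𝒱.Obj, X.Cycles → Prop} {n : ℕ} (hP : HasPowers W Pol n) (r : ℕ) :
    TateWithPoles W q Fr Pol n r ↔ ∃ d, PoleExcessAtMost W q Fr Pol n r d :=
  pair_iff hP (pair_pole hF hP r)

/-- **One power.** -/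
theorem pole_of_power {Pol : ∀ X : 𝒱.Obj, X.Cycles → Prop} {n : ℕ} (hP : HasPowers W Pol n)
    (r : ℕ) {D : S.Cycles} (hS : S.dim = n) (hSD : Pol S D) (h : HasGoodPolePower W q Fr S D r) :
    poleSpace W q Fr S r = spanCycles W S (r : ℤ) := by
  obtain ⟨N, V, A, d, hV, hN, hd⟩ := h
  exact pair_good (pair_pole hF hP r) hS hSD (hP.cyc S D hSD) (hP.hard S D hSD) hV hd hN

/-- **Jordan blocks.** -/
theorem eigenPrinciple {Pol : ∀ X : 𝒱.Obj, X.Cycles → Prop} {n : ℕ} (hP : HasPowers W Pol n)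
    (i : ℕ) : EigenPrinciple W Fr Pol n i := by
  refine ⟨semisimple_iff hF hP i, ?_⟩
  rintro S D hS hSD ⟨N, V, A, d, hV, hN, hd⟩
  exact pair_good (pair_eigenSpan hF hP i) hS hSD (hP.cyc S D hSD) (hP.hard S D hSD) hV hd hN

/-- **Jordan blocks for one eigenvalue.** -/
theorem eigenPrincipleAt {Pol : ∀ X : 𝒱.Obj, X.Cycles → Prop} {n : ℕ} (hP : HasPowers W Pol n)
    (i : ℕ) (α : W.K) : EigenPrincipleAt W Fr Pol n i α := by
  refine ⟨semisimpleAt_iff hF hP i α, ?_⟩
  rintro S D hS hSD ⟨N, V, A, d, hV, hN, hd⟩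
  exact pair_good (pair_eig hF hP i α) hS hSD (hP.cyc S D hSD) (hP.hard S D hSD) hV hd hN

end frob

end Pool.Agent.H44T.BR
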