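import Pool.Agent.H44T.BR.FrobDefs

/-!
# Orders of poles and Jordan blocks up to bounded errors: definitions
-/

open CategoryTheory AlgebraicGeometry

universe u v

namespace Pool.Agent.H44T.BR

open Pool.Agent.H914 Pool.Agent.H914.VarClass Pool.Agent.H914.VarClass.Obj
  Pool.Agent.H914.WeilCohomology

variable {k : Type u} [Field k] {𝒱 : VarClass k} {ops : CycleOps 𝒱}

/-- The generalised eigenspace of the Frobenius in `H^(2r)(X)` for the eigenvalue `q ^ r`; its
dimension is the multiplicity of the root `q ^ r` of the characteristic polynomial. -/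
noncomputable def poleSpace (W : WeilCohomology.{u, v} ops) (q : ℕ) (Fr : ∀ X : 𝒱.Obj, X ⟶ X)
    (X : 𝒱.Obj) (r : ℕ) : Submodule W.K (W.H X) :=
  genSpace (W.gr X (2 * r)) (frob W Fr X) ((q : W.K) ^ r)

/-- For the members of dimension `n` the classes of the cycles of codimension `r` span the
generalised eigenspace of the Frobenius in `H^(2r)(X)` for the eigenvalue `q ^ r`. -/
def TateWithPoles (W : WeilCohomology.{u, v} ops) (q : ℕ) (Fr : ∀ X : 𝒱.Obj, X ⟶ X)
    (Pol : ∀ X : 𝒱.Obj, X.Cycles → Prop) (n r : ℕ) : Prop :=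
  ∀ X D, X.dim = n → Pol X D → poleSpace W q Fr X r = spanCycles W X (r : ℤ)

/-- For the members of dimension `n` the multiplicity of the root `q ^ r` exceeds the dimension of the
span of the classes of the cycles of codimension `r` by at most `d`. -/
def PoleExcessAtMost (W : WeilCohomology.{u, v} ops) (q : ℕ) (Fr : ∀ X : 𝒱.Obj, X ⟶ X)
    (Pol : ∀ X : 𝒱.Obj, X.Cycles → Prop) (n r d : ℕ) : Prop :=
  ∀ X D, X.dim = n → Pol X D → CodimAtMost (spanCycles W X (r : ℤ)) (poleSpace W q Fr X r) d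

/-- On some complete intersection `V` in `S^N` of the dimension of `S`, for some `N`, this excess is
less than `N / dim H(S)`. -/
def HasGoodPolePower (W : WeilCohomology.{u, v} ops) (q : ℕ) (Fr : ∀ X : 𝒱.Obj, X ⟶ X)
    (S : 𝒱.Obj) (D : S.Cycles) (r : ℕ) : Prop :=
  ∃ (N : ℕ) (V : 𝒱.Obj) (A : V.Cycles) (d : ℕ), IsPowerOf W D N A ∧
    d * totalBetti W S < N ∧ CodimAtMost (spanCycles W V (r : ℤ)) (poleSpace W q Fr V r) d

/-- On some complete intersection `V` in `S^N` of the dimension of `S`, for some `N`, the eigenvectors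
of the Frobenius span a subspace of `H^i(V)` of codimension less than `N / dim H(S)`. -/
def HasGoodEigenPower (W : WeilCohomology.{u, v} ops) (Fr : ∀ X : 𝒱.Obj, X ⟶ X)
    (S : 𝒱.Obj) (D : S.Cycles) (i : ℕ) : Prop :=
  ∃ (N : ℕ) (V : 𝒱.Obj) (A : V.Cycles) (d : ℕ), IsPowerOf W D N A ∧
    d * totalBetti W S < N ∧ CodimAtMost (eigenSpan (W.gr V i) (frob W Fr V)) (W.gr V i) d

/-- On some complete intersection `V` in `S^N` of the dimension of `S`, for some `N`, the codimension
of the eigenspace for `α` in the generalised eigenspace in `H^i(V)` is less than `N / dim H(S)`. -/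
def HasGoodEigenPowerAt (W : WeilCohomology.{u, v} ops) (Fr : ∀ X : 𝒱.Obj, X ⟶ X)
    (S : 𝒱.Obj) (D : S.Cycles) (i : ℕ) (α : W.K) : Prop :=
  ∃ (N : ℕ) (V : 𝒱.Obj) (A : V.Cycles) (d : ℕ), IsPowerOf W D N A ∧
    d * totalBetti W S < N ∧
      CodimAtMost (eigSpace (W.gr V i) (frob W Fr V) α) (genSpace (W.gr V i) (frob W Fr V) α) d

/-- The statements for the members of dimension `n` about the eigenvectors in `H^i`: the Frobenius is
diagonalizable for all if the codimensions of the span of the eigenvectors are bounded, and for one of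
them if this codimension is small on one power. -/
def EigenPrinciple (W : WeilCohomology.{u, v} ops) (Fr : ∀ X : 𝒱.Obj, X ⟶ X)
    (Pol : ∀ X : 𝒱.Obj, X.Cycles → Prop) (n i : ℕ) : Prop :=
  (AllSemisimple W Fr Pol n i ↔ ∃ d, EigenDefectAtMost W Fr Pol n i d) ∧
  ∀ S D, S.dim = n → Pol S D → HasGoodEigenPower W Fr S D i →
    W.gr S i = eigenSpan (W.gr S i) (frob W Fr S)

/-- The same for one eigenvalue `α`. -/
def EigenPrincipleAt (W : WeilCohomology.{u, v} ops) (Fr : ∀ X : 𝒱.Obj, X ⟶ X)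
    (Pol : ∀ X : 𝒱.Obj, X.Cycles → Prop) (n i : ℕ) (α : W.K) : Prop :=
  (SemisimpleAt W Fr Pol n i α ↔ ∃ d, DefectAtMostAt W Fr Pol n i α d) ∧
  ∀ S D, S.dim = n → Pol S D → HasGoodEigenPowerAt W Fr S D i α →
    genSpace (W.gr S i) (frob W Fr S) α = eigSpace (W.gr S i) (frob W Fr S) α

end Pool.Agent.H44T.BR
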