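import Pool.Agent.H44T.BR.SocDefs

/-!
# The socle of a representation: linear algebra
-/

set_option linter.unusedSectionVars false

namespace Pool.Agent.H44T.BR

variable {K G V V' : Type*} [Field K] [Group G] [AddCommGroup V] [Module K V]
  [AddCommGroup V'] [Module K V'] {ρ : Representation K G V} {ρ' : Representation K G V'}

/-- A simple stable subspace. -/
def SimpleStable (ρ : Representation K G V) (P : Submodule K V) : Prop :=
  Stable ρ P ∧ P ≠ ⊥ ∧ ∀ Q ≤ P, Stable ρ Q → Q = ⊥ ∨ Q = P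

/-- The sum of the simple stable subspaces of `U`. -/
def socle (ρ : Representation K G V) (U : Submodule K V) : Submodule K V :=
  sSup {P | P ≤ U ∧ SimpleStable ρ P}

lemma stable_inf {P Q : Submodule K V} (hP : Stable ρ P) (hQ : Stable ρ Q) : Stable ρ (P ⊓ Q) :=
  fun g _ hx => ⟨hP g _ hx.1, hQ g _ hx.2⟩

lemma stable_sup {P Q : Submodule K V} (hP : Stable ρ P) (hQ : Stable ρ Q) :
    Stable ρ (P ⊔ Q) := by
  intro g x hx
  obtain ⟨p, hp, q, hq, rfl⟩ := Submodule.mem_sup.1 hx
  rw [map_add]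
  exact Submodule.add_mem _ (Submodule.mem_sup_left (hP g p hp))
    (Submodule.mem_sup_right (hQ g q hq))

lemma stable_sSup {s : Set (Submodule K V)} (hs : ∀ P ∈ s, Stable ρ P) : Stable ρ (sSup s) := by
  intro g
  have h1 : sSup s ≤ (sSup s).comap (ρ g) := sSup_le fun P hP x hx =>
    (le_sSup hP : P ≤ sSup s) (hs P hP g x hx)
  exact fun x hx => h1 hx

lemma stable_bot : Stable ρ (⊥ : Submodule K V) := by
  intro g x hx
  rw [(Submodule.mem_bot K).1 hx, map_zero]
  exact Submodule.zero_mem _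

lemma stable_socle (U : Submodule K V) : Stable ρ (socle ρ U) :=
  stable_sSup fun _ hP => hP.2.1

lemma socle_le (U : Submodule K V) : socle ρ U ≤ U := sSup_le fun _ hP => hP.1

lemma socle_mono {U U' : Submodule K V} (h : U ≤ U') : socle ρ U ≤ socle ρ U' :=
  sSup_le_sSup fun _ hP => ⟨hP.1.trans h, hP.2⟩

lemma socle_socle (U : Submodule K V) : socle ρ (socle ρ U) = socle ρ U :=
  le_antisymm (socle_le _) (sSup_le fun _ hP => le_sSup ⟨le_sSup hP, hP.2⟩)

variable [FiniteDimensional K V]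

/-- A nonzero stable subspace contains a simple one. -/
lemma exists_simple {Q : Submodule K V} (hQ : Stable ρ Q) (h0 : Q ≠ ⊥) :
    ∃ P ≤ Q, SimpleStable ρ P := by
  obtain ⟨P, ⟨hP1, hP2, hP3⟩, hmin⟩ := (measure fun P : Submodule K V =>
    Module.finrank K P).wf.has_min {P : Submodule K V | P ≤ Q ∧ Stable ρ P ∧ P ≠ ⊥}
      ⟨Q, le_rfl, hQ, h0⟩
  refine ⟨P, hP1, hP2, hP3, fun R hR hRs => ?_⟩
  by_contra hcon
  push Not at hcon
  have h1 : R < P := lt_of_le_of_ne hR hcon.2
  exact hmin R ⟨hR.trans hP1, hRs, hcon.1⟩ (Submodule.finrank_lt_finrank_of_lt h1)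

/-- A semisimple stable subspace is the sum of its simple subspaces. -/
lemma le_socle {U : Submodule K V} (hss : IsSemisimpleOn ρ U) : U ≤ socle ρ U := by
  obtain ⟨Q, hQU, hQ, hinf, hsup⟩ := hss (socle ρ U) (socle_le U) (stable_socle U)
  by_cases h0 : Q = ⊥
  · rw [h0, sup_bot_eq] at hsup
    exact hsup.ge
  · obtain ⟨P, hPQ, hP⟩ := exists_simple hQ h0
    have h1 : P ≤ socle ρ U ⊓ Q := le_inf (le_sSup ⟨hPQ.trans hQU, hP⟩) hPQ
    rw [hinf, le_bot_iff] at h1
    exact absurd h1 hP.2.1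

/-- The sum of simple subspaces is semisimple. -/
lemma semisimple_of_le_socle {U : Submodule K V} (hU : U ≤ socle ρ U) :
    IsSemisimpleOn ρ U := by
  intro P hPU hP
  obtain ⟨Q, ⟨hQ1, hQ2, hQ3⟩, hmax⟩ := (measure fun Q : Submodule K V =>
    Module.finrank K V - Module.finrank K Q).wf.has_min
      {Q : Submodule K V | Q ≤ U ∧ Stable ρ Q ∧ P ⊓ Q = ⊥} ⟨⊥, bot_le, stable_bot, inf_bot_eq _⟩
  refine ⟨Q, hQ1, hQ2, hQ3, le_antisymm (sup_le hPU hQ1) ?_⟩
  refine hU.trans (sSup_le ?_)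
  rintro R ⟨hRU, hR⟩
  rcases hR.2.2 (R ⊓ (P ⊔ Q)) inf_le_left (stable_inf hR.1 (stable_sup hP hQ2)) with h1 | h1
  · exfalso
    have hlt : Q < Q ⊔ R := by
      refine lt_of_le_of_ne le_sup_left fun h2 => hR.2.1 ?_
      have h3 : R ≤ Q := by rw [h2]; exact le_sup_right
      rw [← le_bot_iff, ← h1]
      exact le_inf le_rfl (h3.trans le_sup_right)
    refine hmax (Q ⊔ R) ⟨sup_le hQ1 hRU, stable_sup hQ2 hR.1, ?_⟩ ?_
    · rw [← le_bot_iff]
      intro x hx
      obtain ⟨q, hq, r, hr, hqr⟩ := Submodule.mem_sup.1 hx.2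
      have hr2 : r ∈ R ⊓ (P ⊔ Q) := by
        refine ⟨hr, ?_⟩
        have h4 : r = x - q := by rw [← hqr]; abel
        rw [h4]
        exact Submodule.sub_mem _ (Submodule.mem_sup_left hx.1) (Submodule.mem_sup_right hq)
      rw [h1, Submodule.mem_bot] at hr2
      rw [← hQ3]
      refine ⟨hx.1, ?_⟩
      rw [← hqr, hr2, add_zero]
      exact hq
    · have h5 := Submodule.finrank_lt_finrank_of_lt hlt
      have h6 : Module.finrank K (Q ⊔ R : Submodule K V) ≤ Module.finrank K V :=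
        Submodule.finrank_le _
      show Module.finrank K V - Module.finrank K (Q ⊔ R : Submodule K V) <
        Module.finrank K V - Module.finrank K Q
      omega
  · rw [inf_eq_left] at h1
    exact h1

lemma semisimple_iff_socle {U : Submodule K V} : IsSemisimpleOn ρ U ↔ U = socle ρ U :=
  ⟨fun h => le_antisymm (le_socle h) (socle_le U), fun h => semisimple_of_le_socle h.le⟩

lemma semisimple_socle (U : Submodule K V) : IsSemisimpleOn ρ (socle ρ U) :=
  semisimple_of_le_socle (socle_socle U).ge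

lemma upTo_iff {U : Submodule K V} {d : ℕ} :
    SemisimpleUpTo ρ U d ↔ CodimAtMost (socle ρ U) U d := by
  constructor
  · rintro ⟨P, hPU, _, hss, hd⟩
    have h1 : P ≤ socle ρ U := (le_socle hss).trans (socle_mono hPU)
    exact hd.trans (Nat.add_le_add_right (Submodule.finrank_mono h1) d)
  · intro h
    exact ⟨socle ρ U, socle_le U, stable_socle U, semisimple_socle U, h⟩

omit [FiniteDimensional K V]

/-- The image of a simple stable subspace is zero or simple. -/
lemma map_simple {φ : V →ₗ[K] V'} (hφ : Commutes ρ ρ' φ) {P : Submodule K V}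
    (hP : SimpleStable ρ P) : P.map φ = ⊥ ∨ SimpleStable ρ' (P.map φ) := by
  by_cases h0 : P.map φ = ⊥
  · exact Or.inl h0
  right
  refine ⟨?_, h0, ?_⟩
  · rintro g _ ⟨x, hx, rfl⟩
    exact ⟨ρ g x, hP.1 g x hx, hφ g x⟩
  · intro Q hQ hQs
    have h1 : Stable ρ (P ⊓ Q.comap φ) := by
      intro g x hx
      refine ⟨hP.1 g x hx.1, ?_⟩
      show φ (ρ g x) ∈ Q
      rw [hφ g x]
      exact hQs g _ hx.2
    have h2 : Q = (P ⊓ Q.comap φ).map φ := by
      apply le_antisymm
      · intro y hy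
        obtain ⟨x, hx, rfl⟩ := hQ hy
        exact ⟨x, ⟨hx, hy⟩, rfl⟩
      · rintro _ ⟨x, hx, rfl⟩
        exact hx.2
    rcases hP.2.2 _ inf_le_left h1 with h3 | h3
    · left
      rw [h2, h3, Submodule.map_bot]
    · right
      rw [h2, h3]

lemma map_socle {φ : V →ₗ[K] V'} (hφ : Commutes ρ ρ' φ) {U : Submodule K V}
    {U' : Submodule K V'} (hU : ∀ x ∈ U, φ x ∈ U') {x : V} (hx : x ∈ socle ρ U) :
    φ x ∈ socle ρ' U' := by
  have h1 : socle ρ U ≤ (socle ρ' U').comap φ := by
    refine sSup_le fun P hP => ?_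
    rw [← Submodule.map_le_iff_le_comap]
    rcases map_simple hφ hP.2 with h2 | h2
    · rw [h2]; exact bot_le
    · refine le_sSup ⟨?_, h2⟩
      rintro _ ⟨y, hy, rfl⟩
      exact hU y (hP.1 hy)
  exact h1 hx

/-- A line on which the group acts by a character is in the socle. -/
lemma mem_socle {U : Submodule K V} {z : V} (hz : z ∈ U) (hs : ∀ g, ∃ a : K, ρ g z = a • z) :
    z ∈ socle ρ U := by
  by_cases h0 : z = 0
  · rw [h0]; exact Submodule.zero_mem _
  have h1 : SimpleStable ρ (Submodule.span K {z}) := by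
    refine ⟨?_, ?_, ?_⟩
    · intro g x hx
      obtain ⟨b, rfl⟩ := Submodule.mem_span_singleton.1 hx
      obtain ⟨a, ha⟩ := hs g
      rw [map_smul, ha]
      exact Submodule.smul_mem _ _ (Submodule.smul_mem _ _ (Submodule.mem_span_singleton_self z))
    · rwa [Ne, Submodule.span_singleton_eq_bot]
    · intro Q hQ _
      by_cases hQ0 : Q = ⊥
      · exact Or.inl hQ0
      right
      obtain ⟨y, hy, hy0⟩ := Submodule.exists_mem_ne_zero_of_ne_bot hQ0
      obtain ⟨b, rfl⟩ := Submodule.mem_span_singleton.1 (hQ hy)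
      have hb : b ≠ 0 := by
        rintro rfl
        exact hy0 (zero_smul _ _)
      refine le_antisymm hQ ((Submodule.span_singleton_le_iff_mem _ _).2 ?_)
      have h2 := Submodule.smul_mem Q b⁻¹ hy
      rwa [smul_smul, inv_mul_cancel₀ hb, one_smul] at h2
  have h2 : Submodule.span K {z} ≤ socle ρ U :=
    le_sSup ⟨(Submodule.span_singleton_le_iff_mem _ _).2 hz, h1⟩
  exact h2 (Submodule.mem_span_singleton_self z)

end Pool.Agent.H44T.BR
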