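import Pool.Agent.H44T.BR.FrobDefs

/-!
# Semisimplicity of the Galois representations up to errors of bounded rank: definitions
-/

open CategoryTheory AlgebraicGeometry

universe u v

namespace Pool.Agent.H44T.BR

open Pool.Agent.H914 Pool.Agent.H914.VarClass Pool.Agent.H914.VarClass.Obj
  Pool.Agent.H914.WeilCohomology

section Alg

variable {K G V V' : Type*} [Field K] [Group G] [AddCommGroup V] [Module K V]
  [AddCommGroup V'] [Module K V']

/-- The subspace `P` is stable under the group. -/
def Stable (ρ : Representation K G V) (P : Submodule K V) : Prop := ∀ g, ∀ x ∈ P, ρ g x ∈ P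

/-- Every stable subspace of `U` has a stable complement in `U`. -/
def IsSemisimpleOn (ρ : Representation K G V) (U : Submodule K V) : Prop :=
  ∀ P ≤ U, Stable ρ P → ∃ Q ≤ U, Stable ρ Q ∧ P ⊓ Q = ⊥ ∧ P ⊔ Q = U

/-- `U` contains a stable semisimple subspace of codimension at most `d`. -/
def SemisimpleUpTo (ρ : Representation K G V) (U : Submodule K V) (d : ℕ) : Prop :=
  ∃ P ≤ U, Stable ρ P ∧ IsSemisimpleOn ρ P ∧ CodimAtMost P U d

/-- The operators of the group are multiplicative. -/
def Multiplicative {A : Type*} [Ring A] [Algebra K A] (ρ : Representation K G A) : Prop :=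
  ∀ g x y, ρ g (x * y) = ρ g x * ρ g y

/-- The linear map `f` commutes with the group. -/
def Commutes (ρ : Representation K G V) (ρ' : Representation K G V') (f : V →ₗ[K] V') : Prop :=
  ∀ g x, f (ρ g x) = ρ' g (f x)

/-- The group acts on the linear form `t` by the `m`-th power of the character `χ`. -/
def ScalesForm (ρ : Representation K G V) (χ : G →* Kˣ) (m : ℕ) (t : V →ₗ[K] K) : Prop :=
  ∀ g, ScalesBy t (ρ g) (χ g : K) m

/-- The group acts on the vector `z` by the `m`-th power of the character `χ`. -/
def ScalesVec (ρ : Representation K G V) (χ : G →* Kˣ) (m : ℕ) (z : V) : Prop :=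
  ∀ g, IsEigen (ρ g) (χ g : K) m z

end Alg

variable {k : Type u} [Field k] {𝒱 : VarClass k} {ops : CycleOps 𝒱}

/-- The group `G` acts on the cohomology of the varieties as the Galois group: by algebra
automorphisms which preserve the degree and commute with the pull-backs, by the `p`-th power of the
character `χ` (the inverse of the cyclotomic character) on the classes of the cycles of codimension
`p` and on the top cohomology of a variety of dimension `p`. -/
structure IsGaloisAction (W : WeilCohomology.{u, v} ops) {G : Type*} [Group G]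
    (ρ : ∀ X : 𝒱.Obj, Representation W.K G (W.H X)) (χ : G →* W.Kˣ) : Prop where
  mul : ∀ X, Multiplicative (ρ X)
  gr : ∀ X i, Stable (ρ X) (W.gr X i)
  natural : ∀ {X Y : 𝒱.Obj} (f : X ⟶ Y), Commutes (ρ Y) (ρ X) (W.map f).toLinearMap
  tr : ∀ X, ScalesForm (ρ X) χ X.dim (W.tr X)
  cyc : ∀ (X : 𝒱.Obj) (p : ℕ) (z : X.Cycles), X.IsCyc p z → ScalesVec (ρ X) χ p (W.cl X z)

/-- The representations on `H^i(X)` are semisimple for the members of dimension `n`. -/
def GalSemisimple (W : WeilCohomology.{u, v} ops) {G : Type*} [Group G]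
    (ρ : ∀ X : 𝒱.Obj, Representation W.K G (W.H X))
    (Pol : ∀ X : 𝒱.Obj, X.Cycles → Prop) (n i : ℕ) : Prop :=
  ∀ X D, X.dim = n → Pol X D → IsSemisimpleOn (ρ X) (W.gr X i)

/-- The representations on `H^i(X)` are semisimple up to an error of dimension at most `d`, for the
members of dimension `n`. -/
def GalSemisimpleUpTo (W : WeilCohomology.{u, v} ops) {G : Type*} [Group G]
    (ρ : ∀ X : 𝒱.Obj, Representation W.K G (W.H X))
    (Pol : ∀ X : 𝒱.Obj, X.Cycles → Prop) (n i d : ℕ) : Prop :=
  ∀ X D, X.dim = n → Pol X D → SemisimpleUpTo (ρ X) (W.gr X i) d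

/-- On some complete intersection `V` in `S^N` of the dimension of `S`, for some `N`, the
representation `H^i(V)` is semisimple up to an error of dimension less than `N / dim H(S)`. -/
def HasGoodGalPower (W : WeilCohomology.{u, v} ops) {G : Type*} [Group G]
    (ρ : ∀ X : 𝒱.Obj, Representation W.K G (W.H X)) (S : 𝒱.Obj) (D : S.Cycles) (i : ℕ) : Prop :=
  ∃ (N : ℕ) (V : 𝒱.Obj) (A : V.Cycles) (d : ℕ), IsPowerOf W D N A ∧
    d * totalBetti W S < N ∧ SemisimpleUpTo (ρ V) (W.gr V i) d

end Pool.Agent.H44T.BR
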