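import Pool.Agent.H44T.BR.Defs
import Pool.Agent.H914R2.KLef

/-!
# Intersection numbers on the complete intersections in `S^N`
-/

open CategoryTheory AlgebraicGeometry Finset

set_option linter.unusedSectionVars false

universe u v

namespace Pool.Agent.H44T.BR

open Pool.Agent.H914 Pool.Agent.H914.VarClass Pool.Agent.H914.VarClass.Obj
  Pool.Agent.H914.WeilCohomology Pool.Agent.V1144.Pw

variable {k : Type u} [Field k] {𝒱 : VarClass k} {ops : CycleOps 𝒱}
  {W : WeilCohomology.{u, v} ops} {S V R X Y : 𝒱.Obj}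

lemma cl_sumDiv (D : S.Cycles) (E : R.Cycles) : W.cl _ (sumDiv ops D E) =
    W.map (fst S R) (W.cl S D) + W.map (snd S R) (W.cl R E) := by
  rw [sumDiv, map_add, W.cl_pull, W.cl_pull]

lemma pow_mem_gr {a : W.H X} (ha : a ∈ W.gr X (2 * 1)) (s : ℕ) : a ^ s ∈ W.gr X (2 * s) := by
  induction s with
  | zero => simpa using W.one_mem X
  | succ s ih =>
    rw [pow_succ]
    have := W.mul_mem ih ha
    rwa [show 2 * s + 2 * 1 = 2 * (s + 1) by ring] at this

lemma tr_pow {a : W.H S} {b : W.H R} (ha : a ∈ W.gr S (2 * 1)) (hb : b ∈ W.gr R (2 * 1)) (m : ℕ)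
    (u : W.H S) (v : W.H R) :
    W.tr _ ((W.map (fst S R) a + W.map (snd S R) b) ^ m *
      (W.map (fst S R) u * W.map (snd S R) v)) =
      ∑ s ∈ range (m + 1), (m.choose s : W.K) * (W.tr S (a ^ s * u) * W.tr R (b ^ (m - s) * v)) := by
  have hc : Commute (W.map (fst S R) a) (W.map (snd S R) b) := W.even_comm (W.map_mem _ ha) _
  rw [hc.add_pow, Finset.sum_mul, map_sum]
  apply Finset.sum_congr rfl
  intro s _
  have hb' := W.map_mem (snd S R) (pow_mem_gr hb (m - s))
  have e1 : W.map (fst S R) a ^ s * W.map (snd S R) b ^ (m - s) * (m.choose s : W.H (S.prod R)) *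
      (W.map (fst S R) u * W.map (snd S R) v) =
      (m.choose s : W.K) • (W.map (fst S R) (a ^ s * u) * W.map (snd S R) (b ^ (m - s) * v)) := by
    have e2 : (m.choose s : W.H (S.prod R)) = algebraMap W.K _ (m.choose s : W.K) := by simp
    have e3 : W.map (snd S R) (b ^ (m - s)) * W.map (fst S R) u =
        W.map (fst S R) u * W.map (snd S R) (b ^ (m - s)) := W.even_comm hb' _
    rw [map_pow] at e3
    rw [e2, ← Algebra.commutes, ← mul_assoc, ← Algebra.smul_def, map_mul, map_mul, map_pow, map_pow]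
    simp only [smul_mul_assoc]
    congr 1
    simp only [mul_assoc]
    rw [← mul_assoc (W.map (snd S R) b ^ (m - s)), e3, mul_assoc]
  rw [e1, map_smul, W.tr_prod, smul_eq_mul]

lemma pow_eq_zero_of_lt {b : W.H R} (hb : b ∈ W.gr R (2 * 1)) {s : ℕ} (hs : R.dim < s) :
    b ^ s = 0 := by
  have := pow_mem_gr hb s
  rw [W.gr_eq_bot R (2 * s) (by omega)] at this
  exact (Submodule.mem_bot _).1 this

lemma pow_mul_zero {a x : W.H S} {m s : ℕ} (hx : a ^ m * x = 0) (hs : m ≤ s) : a ^ s * x = 0 := by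
  obtain ⟨t, rfl⟩ := Nat.exists_eq_add_of_le hs
  rw [Nat.add_comm, pow_add, mul_assoc, hx, mul_zero]

section power

variable {D : S.Cycles} {E : R.Cycles} {A : V.Cycles} {N : ℕ} {f : Fin N → (V ⟶ S.prod R)} {c : ℚ}
  (h : IsPower W D E A f c) (hD : S.IsCyc 1 D)
include h hD

lemma IsPower.tr_map (l : Fin N) (s : W.H (S.prod R)) : W.tr V (W.map (f l) s) =
    (c : W.K) * W.tr _ ((W.map (fst S R) (W.cl S D) + W.map (snd S R) (W.cl R E)) ^ R.dim * s) := by
  have h1 := W.tr_push (f l) 1 s
  rw [one_mul] at h1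
  have h2 : W.push (f l) 1 = (c : W.K) • sumClass W D E ^ R.dim := (h.sect l).push
  rw [← h1, h2, sumClass, cl_sumDiv, smul_mul_assoc, map_smul, smul_eq_mul]

/-- The degree of the projections. -/
lemma IsPower.push_map (l : Fin N) (x : W.H S) :
    W.push (f l ≫ fst S R) (W.map (f l ≫ fst S R) x) =
      ((c : W.K) * W.tr R (W.cl R E ^ R.dim)) • x := by
  apply W.tr_ext
  intro y
  rw [W.tr_push, ← map_mul (W.map (f l ≫ fst S R)), W.map_comp, h.tr_map hD l]
  have h1 := tr_pow (W.cl_mem hD) (W.cl_mem h.pair.cycE) R.dim (x * y) 1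
  rw [map_one, mul_one] at h1
  rw [h1, Finset.sum_eq_single 0]
  · rw [Nat.choose_zero_right, pow_zero, one_mul, Nat.sub_zero, mul_one, smul_mul_assoc, map_smul,
      smul_eq_mul]
    push_cast
    ring
  · intro s hs hs0
    have h2 : W.tr R (W.cl R E ^ (R.dim - s) * 1) = 0 := by
      rw [mul_one]
      apply W.tr_eq_zero (pow_mem_gr (W.cl_mem h.pair.cycE) _)
      have := Finset.mem_range.1 hs
      omega
    rw [h2, mul_zero, mul_zero]
  · intro h0
    simp at h0

/-- Different projections are orthogonal on primitive classes of positive degree. -/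
lemma IsPower.push_map_ne {l m : Fin N} (hlm : l ≠ m) {i : ℕ} (hi0 : 0 < i) (hi : i ≤ S.dim)
    {x : W.H S} (hx : x ∈ W.gr S i) (hp : W.cl S D ^ (S.dim - i + 1) * x = 0) :
    W.push (f m ≫ fst S R) (W.map (f l ≫ fst S R) x) = 0 := by
  obtain ⟨q, hq⟩ := h.factor l m hlm
  apply W.nondeg
  intro y
  rw [W.tr_push, hq]
  have e1 : W.map (f l ≫ fst S R) x * W.map (f l ≫ snd S R ≫ q) y =
      W.map (f l) (W.map (fst S R) x * W.map (snd S R) (W.map q y)) := by
    rw [map_mul (W.map (f l)), W.map_comp, W.map_comp, W.map_comp]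
  rw [e1, h.tr_map hD l, tr_pow (W.cl_mem hD) (W.cl_mem h.pair.cycE), Finset.sum_eq_zero, mul_zero]
  intro s _
  have h2 : W.tr S (W.cl S D ^ s * x) = 0 := by
    by_cases hs : S.dim - i + 1 ≤ s
    · rw [pow_mul_zero hp hs, map_zero]
    · apply W.tr_eq_zero (W.mul_mem (pow_mem_gr (W.cl_mem hD) s) hx)
      omega
  rw [h2, zero_mul, mul_zero]

/-- The pull-back of `ξ ^ (n - i) x`, `x` primitive of degree `i < n`, is a multiple of
`ξ_V ^ (n - i)` times the pull-back of `x`. -/
lemma IsPower.map_prim (l : Fin N) {i : ℕ} (hi : i < S.dim)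
    {x : W.H S} (hx : x ∈ W.gr S i) (hp : W.cl S D ^ (S.dim - i + 1) * x = 0) :
    W.cl V A ^ (S.dim - i) * W.map (f l ≫ fst S R) x =
      ((R.dim + (S.dim - i)).choose (S.dim - i) : W.K) •
        W.map (f l ≫ fst S R) (W.cl S D ^ (S.dim - i) * x) := by
  set a := W.cl S D with ha
  set b := W.cl R E with hb
  have ha2 : a ∈ W.gr S (2 * 1) := W.cl_mem hD
  have hb2 : b ∈ W.gr R (2 * 1) := W.cl_mem h.pair.cycE
  set ω := W.map (fst S R) a + W.map (snd S R) b with hω
  have hA : W.cl V A = W.map (f l) ω := by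
    have h2 : W.cl V A = W.map (f l) (sumClass W D E) := (h.sect l).cl
    rw [h2, sumClass, cl_sumDiv]
  set C := ((R.dim + (S.dim - i)).choose (S.dim - i) : W.K) with hC
  -- the identity on `S × R`
  have key : ∀ w : W.H (S.prod R),
      W.tr _ (ω ^ R.dim * (ω ^ (S.dim - i) * W.map (fst S R) x * w)) =
        C * W.tr _ (ω ^ R.dim * (W.map (fst S R) (a ^ (S.dim - i) * x) * w)) := by
    intro w
    refine W.kunneth_induction (p := fun w =>
      W.tr _ (ω ^ R.dim * (ω ^ (S.dim - i) * W.map (fst S R) x * w)) =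
        C * W.tr _ (ω ^ R.dim * (W.map (fst S R) (a ^ (S.dim - i) * x) * w))) ?_ ?_ w
    · intro w w' hw hw'
      simp only [mul_add, map_add, hw, hw']
    · intro j j' u _ v _
      have e1 : ω ^ R.dim * (ω ^ (S.dim - i) * W.map (fst S R) x *
          (W.map (fst S R) u * W.map (snd S R) v)) =
          ω ^ (R.dim + (S.dim - i)) * (W.map (fst S R) (x * u) * W.map (snd S R) v) := by
        rw [pow_add, map_mul]
        simp only [mul_assoc]
      have e2 : ω ^ R.dim * (W.map (fst S R) (a ^ (S.dim - i) * x) *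
          (W.map (fst S R) u * W.map (snd S R) v)) =
          ω ^ R.dim * (W.map (fst S R) (a ^ (S.dim - i) * x * u) * W.map (snd S R) v) := by
        rw [map_mul (W.map (fst S R)) (a ^ (S.dim - i) * x)]
        simp only [mul_assoc]
      rw [e1, e2, tr_pow ha2 hb2, tr_pow ha2 hb2, Finset.sum_eq_single (S.dim - i),
        Finset.sum_eq_single 0]
      · rw [Nat.add_sub_cancel, pow_zero, one_mul, Nat.choose_zero_right, Nat.sub_zero, hC,
          mul_assoc (a ^ (S.dim - i))]
        push_cast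
        ring
      · intro s _ hs0
        have : a ^ s * (a ^ (S.dim - i) * x * u) = 0 := by
          rw [← mul_assoc, ← mul_assoc, ← pow_add, pow_mul_zero hp (by omega), zero_mul]
        rw [this, map_zero, zero_mul, mul_zero]
      · intro h0; simp at h0
      · intro s hs hs0
        rcases Nat.lt_or_gt_of_ne hs0 with hlt | hgt
        · rw [pow_eq_zero_of_lt hb2 (s := R.dim + (S.dim - i) - s) (by omega), zero_mul, map_zero,
            mul_zero, mul_zero]
        · rw [← mul_assoc (a ^ s) x u, pow_mul_zero hp (by omega), zero_mul, map_zero, zero_mul,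
            mul_zero]
      · intro h0
        exact absurd (Finset.mem_range.2 (by omega)) h0
  apply W.tr_ext
  intro v
  have hgl : W.cl V A ^ (S.dim - i) * W.map (f l ≫ fst S R) x ∈ W.gr V (2 * S.dim - i) := by
    have := W.mul_mem (pow_mem_gr (W.cl_mem h.pair.cycA) (S.dim - i)) (W.map_mem (f l ≫ fst S R) hx)
    rwa [show 2 * (S.dim - i) + i = 2 * S.dim - i by omega] at this
  have hgr : C • W.map (f l ≫ fst S R) (a ^ (S.dim - i) * x) ∈ W.gr V (2 * S.dim - i) := by
    have := W.map_mem (f l ≫ fst S R) (W.mul_mem (pow_mem_gr ha2 (S.dim - i)) hx)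
    rw [show 2 * (S.dim - i) + i = 2 * S.dim - i by omega] at this
    exact Submodule.smul_mem _ _ this
  refine gr_induction (W.isInternal V) (p := fun v =>
    W.tr V (W.cl V A ^ (S.dim - i) * W.map (f l ≫ fst S R) x * v) =
      W.tr V (C • W.map (f l ≫ fst S R) (a ^ (S.dim - i) * x) * v)) ?_ ?_ v
  · intro j v hv
    by_cases hj : j = i
    · subst hj
      obtain ⟨w, _, rfl⟩ := (h.sect l).weak j hi v hv
      have e1 : W.cl V A ^ (S.dim - j) * W.map (f l ≫ fst S R) x * W.map (f l) w =
          W.map (f l) (ω ^ (S.dim - j) * W.map (fst S R) x * w) := by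
        rw [hA, W.map_comp, map_mul, map_mul, map_pow]
      have e2 : C • W.map (f l ≫ fst S R) (a ^ (S.dim - j) * x) * W.map (f l) w =
          C • W.map (f l) (W.map (fst S R) (a ^ (S.dim - j) * x) * w) := by
        rw [W.map_comp, smul_mul_assoc, map_mul (W.map (f l))]
      rw [e1, e2, map_smul, h.tr_map hD l, h.tr_map hD l, key w, smul_eq_mul]
      ring
    · rw [W.tr_eq_zero (W.mul_mem hgl hv) (by rw [h.dim]; omega),
        W.tr_eq_zero (W.mul_mem hgr hv) (by rw [h.dim]; omega)]
  · intro v v' hv hv'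
    rw [mul_add, mul_add, map_add, map_add, hv, hv']

end power

end Pool.Agent.H44T.BR
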